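import Mathlib
import Pool.Agent.H590Z.HC.Seq

set_option autoImplicit false

namespace Pool.Agent.H481Z.PF

open Finset Polynomial

theorem pfrac {ι : Type} [DecidableEq ι] (A : Finset ι) (v : ι → ℂ) (hv : Set.InjOn v A)
    (p : ℂ[X]) (hp : p.degree < A.card) (z : ℂ) (hz : ∀ u ∈ A, z ≠ v u) :
    p.eval z / ∏ u ∈ A, (z - v u) =
      ∑ u ∈ A, p.eval (v u) / (∏ u' ∈ A.erase u, (v u - v u')) / (z - v u) := by
  have h1 := Lagrange.eq_interpolate hv hp
  have h2 := Lagrange.eval_interpolate_not_at_node (s := A) (v := v)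
    (fun i => p.eval (v i)) hz
  rw [← h1, Lagrange.eval_nodal] at h2
  have hne : ∏ u ∈ A, (z - v u) ≠ 0 := prod_ne_zero_iff.2 fun u hu => sub_ne_zero.2 (hz u hu)
  rw [h2, mul_div_cancel_left₀ _ hne]
  refine sum_congr rfl fun u _ => ?_
  rw [Lagrange.nodalWeight, prod_inv_distrib]
  ring

theorem injA (A : Finset ℤ) : Set.InjOn (fun t : ℤ => (t : ℂ)) A :=
  fun _ _ _ _ h => Int.cast_injective h

theorem rS_eq (S : Finset ℤ) (lam : ℤ → ℂ) (h0 : 0 ∉ S) (t : ℤ) (ht : t ∈ S) :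
    Pool.Agent.H590Z.HC.rS S lam t =
      (∏ u ∈ insert 0 S, (lam t - u)) / ∏ u ∈ S.erase t, (lam t - lam u) := by
  rw [Pool.Agent.H590Z.HC.rS, prod_insert h0, ← mul_prod_erase S _ ht, prod_div_distrib]
  simp only [Int.cast_zero, sub_zero]
  ring

/-- The numerator of the finite Cauchy sum. -/
noncomputable def kap (S : Finset ℤ) (k : ℤ → ℂ) (w : ℂ) : ℂ :=
  ∑ t ∈ insert 0 S, k t * ∏ u ∈ (insert 0 S).erase t, (w - u)

theorem kap_off (S : Finset ℤ) (k : ℤ → ℂ) (w : ℂ) (hw : ∀ t ∈ insert 0 S, w ≠ (t : ℤ)) :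
    kap S k w = (∏ u ∈ insert 0 S, (w - u)) * ∑ t ∈ insert 0 S, k t / (w - t) := by
  rw [kap, mul_sum]
  refine sum_congr rfl fun t ht => ?_
  rw [← mul_prod_erase _ _ ht]
  have : w - t ≠ 0 := sub_ne_zero.2 (hw t ht)
  field_simp

theorem kap_on (S : Finset ℤ) (k : ℤ → ℂ) (t : ℤ) (ht : t ∈ insert 0 S) :
    kap S k t = k t * ∏ u ∈ (insert 0 S).erase t, ((t : ℂ) - u) := by
  rw [kap]
  refine sum_eq_single_of_mem t ht fun s _ hst => ?_
  rw [prod_eq_zero (f := fun u : ℤ => (t : ℂ) - u) (i := t) (mem_erase.2 ⟨hst.symm, ht⟩)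
    (sub_self _), mul_zero]

theorem zS_eq (S : Finset ℤ) (lam k : ℤ → ℂ) (h0 : 0 ∉ S) (hinj : Set.InjOn lam S)
    (hni : ∀ t ∈ S, ∀ n : ℤ, lam t ≠ n) (w : ℂ) (hw' : ∀ t ∈ S, w ≠ lam t) :
    Pool.Agent.H590Z.HC.zS S lam k w = kap S k w / ∏ u ∈ S, (w - lam u) := by
  set q : ℂ[X] := ∑ t ∈ insert 0 S, C (k t) *
    (Lagrange.nodal ((insert 0 S).erase t) (fun u : ℤ => (u : ℂ)) - Lagrange.nodal S lam) with hq
  have hdeg : q.degree < S.card := by
    refine (degree_sum_le _ _).trans_lt ?_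
    rw [Finset.sup_lt_iff (by exact WithBot.bot_lt_coe _)]
    intro t ht
    have hc : ((insert 0 S).erase t).card = S.card := by
      rw [card_erase_of_mem ht, card_insert_of_notMem h0]; rfl
    have hd : (Lagrange.nodal ((insert 0 S).erase t) (fun u : ℤ => (u : ℂ)) -
        Lagrange.nodal S lam).degree < S.card := by
      have := degree_sub_lt_left (p := Lagrange.nodal ((insert 0 S).erase t) (fun u : ℤ => (u : ℂ)))
        (q := Lagrange.nodal S lam)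
        (by rw [Lagrange.degree_nodal, Lagrange.degree_nodal, hc]) Lagrange.nodal_ne_zero
        (by rw [Lagrange.nodal_monic.leadingCoeff, Lagrange.nodal_monic.leadingCoeff])
      rwa [Lagrange.degree_nodal, hc] at this
    rw [← smul_eq_C_mul]
    exact (degree_smul_le _ _).trans_lt hd
  have hev : ∀ x : ℂ, q.eval x =
      kap S k x - (∑ t ∈ insert 0 S, k t) * ∏ u ∈ S, (x - lam u) := by
    intro x
    rw [hq, eval_finsetSum, kap, sum_mul, ← sum_sub_distrib]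
    refine sum_congr rfl fun t _ => ?_
    rw [eval_mul, eval_C, eval_sub, Lagrange.eval_nodal, Lagrange.eval_nodal]
    ring
  have h := pfrac S lam hinj q hdeg w hw'
  have hne : ∏ u ∈ S, (w - lam u) ≠ 0 := prod_ne_zero_iff.2 fun u hu => sub_ne_zero.2 (hw' u hu)
  rw [hev, sub_div, mul_div_cancel_right₀ _ hne, sub_eq_iff_eq_add'] at h
  rw [h, Pool.Agent.H590Z.HC.zS]
  congr 1
  refine sum_congr rfl fun t ht => ?_
  rw [hev, prod_eq_zero (f := fun u => lam t - lam u) (i := t) ht (sub_self _), mul_zero,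
    sub_zero, rS_eq S lam h0 t ht,
    kap_off S k (lam t) fun u _ => hni t ht u]
  ring

end Pool.Agent.H481Z.PF

namespace Pool.Agent.H590Z.HC

open Finset Polynomial Pool.Agent.H481Z.PF

theorem pf_one (S : Finset ℤ) (lam : ℤ → ℂ) (h0 : 0 ∉ S) (z : ℂ) (hz : ∀ t ∈ insert 0 S, z ≠ (t : ℤ)) :
    bS S lam z = ∑ t ∈ insert 0 S, gS S lam t / (z - t) := by
  have h := pfrac (insert 0 S) (fun t : ℤ => (t : ℂ)) (injA _) (Lagrange.nodal S lam)
    (by rw [Lagrange.degree_nodal, card_insert_of_notMem h0]; exact_mod_cast Nat.lt_succ_self _)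
    z hz
  simp only [Lagrange.eval_nodal] at h
  simp only [gS]
  rw [← h, bS, prod_insert h0, prod_div_distrib]
  simp only [Int.cast_zero, sub_zero]
  ring

theorem pf_der (S : Finset ℤ) (lam : ℤ → ℂ) (h0 : 0 ∉ S) (hinj : Set.InjOn lam S)
    (hni : ∀ t ∈ S, ∀ n : ℤ, lam t ≠ n) (t : ℤ) (ht : t ∈ S) :
    rS S lam t * ∑ u ∈ insert 0 S, gS S lam u / ((u - lam t) * (lam t - u)) = 1 := by
  have h := pfrac (insert 0 S) (fun t : ℤ => (t : ℂ)) (injA _) (Lagrange.nodal (S.erase t) lam)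
    (by
      rw [Lagrange.degree_nodal, card_insert_of_notMem h0]
      exact_mod_cast Nat.lt_succ_of_le card_erase_le)
    (lam t) (fun u _ => hni t ht u)
  simp only [Lagrange.eval_nodal] at h
  have h2 : ∑ u ∈ insert 0 S, gS S lam u / ((u - lam t) * (lam t - u)) =
      (∏ u ∈ S.erase t, (lam t - lam u)) / ∏ u ∈ insert 0 S, (lam t - u) := by
    rw [h]
    refine sum_congr rfl fun u _ => ?_
    rw [gS, ← mul_prod_erase S _ ht]
    have h3 : (u : ℂ) - lam t ≠ 0 := sub_ne_zero.2 (hni t ht u).symm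
    rw [div_mul_eq_div_div, mul_div_assoc, mul_div_cancel_left₀ _ h3]
  rw [h2, rS_eq S lam h0 t ht]
  have h4 : ∏ u ∈ insert 0 S, (lam t - u) ≠ 0 :=
    prod_ne_zero_iff.2 fun u _ => sub_ne_zero.2 (hni t ht u)
  have h5 : ∏ u ∈ S.erase t, (lam t - lam u) ≠ 0 :=
    prod_ne_zero_iff.2 fun u hu => sub_ne_zero.2 fun e =>
      (mem_erase.1 hu).1 (hinj (mem_erase.1 hu).2 ht e.symm)
  field_simp

theorem pf_off (S : Finset ℤ) (lam k : ℤ → ℂ) (h0 : 0 ∉ S) (hinj : Set.InjOn lam S)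
    (hni : ∀ t ∈ S, ∀ n : ℤ, lam t ≠ n) (w : ℂ) (hw : ∀ t ∈ insert 0 S, w ≠ (t : ℤ))
    (hw' : ∀ t ∈ S, w ≠ lam t) :
    zS S lam k w * bS S lam w = ∑ t ∈ insert 0 S, k t / (w - t) := by
  rw [zS_eq S lam k h0 hinj hni w hw', kap_off S k w hw, bS, prod_insert h0, prod_div_distrib]
  have h1 : ∏ u ∈ S, (w - lam u) ≠ 0 := prod_ne_zero_iff.2 fun u hu => sub_ne_zero.2 (hw' u hu)
  have h2 : ∏ u ∈ S, (w - (u : ℂ)) ≠ 0 :=
    prod_ne_zero_iff.2 fun u hu => sub_ne_zero.2 (hw u (mem_insert_of_mem hu))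
  have h3 : w ≠ 0 := by simpa using hw 0 (mem_insert_self _ _)
  simp only [Int.cast_zero, sub_zero]
  field_simp

theorem pf_on (S : Finset ℤ) (lam k : ℤ → ℂ) (h0 : 0 ∉ S) (hinj : Set.InjOn lam S)
    (hni : ∀ t ∈ S, ∀ n : ℤ, lam t ≠ n) (t : ℤ) (ht : t ∈ insert 0 S) :
    zS S lam k t * gS S lam t = k t := by
  rw [zS_eq S lam k h0 hinj hni t (fun u hu => (hni u hu t).symm), kap_on S k t ht, gS]
  have h1 : ∏ u ∈ S, ((t : ℂ) - lam u) ≠ 0 :=
    prod_ne_zero_iff.2 fun u hu => sub_ne_zero.2 (hni u hu t).symm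
  have h2 : ∏ u ∈ (insert 0 S).erase t, ((t : ℂ) - u) ≠ 0 :=
    prod_ne_zero_iff.2 fun u hu => sub_ne_zero.2 fun e =>
      (mem_erase.1 hu).1 (Int.cast_injective e).symm
  field_simp

theorem pf_mul (S F : Finset ℤ) (lam k y : ℤ → ℂ) (hni : ∀ t ∈ S, ∀ n : ℤ, lam t ≠ n) (z : ℂ)
    (hz : ∀ n : ℤ, z ≠ n) (hz' : ∀ t ∈ S, z ≠ lam t) :
    zS S lam k z * ∑ n ∈ F, y n / (z - n) = ∑ n ∈ F, y n * zS S lam k n / (z - n) +
      ∑ t ∈ S, rS S lam t * (∑ u ∈ insert 0 S, k u / (lam t - u)) *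
        (∑ n ∈ F, y n / (lam t - n)) / (z - lam t) := by
  have h1 : ∑ t ∈ S, rS S lam t * (∑ u ∈ insert 0 S, k u / (lam t - u)) *
        (∑ n ∈ F, y n / (lam t - n)) / (z - lam t) =
      ∑ n ∈ F, ∑ t ∈ S, rS S lam t * (∑ u ∈ insert 0 S, k u / (lam t - u)) *
        (y n / (lam t - n)) / (z - lam t) := by
    rw [sum_comm]
    refine sum_congr rfl fun t _ => ?_
    rw [mul_sum F, sum_div]
  rw [h1, mul_sum, ← sum_add_distrib]
  refine sum_congr rfl fun n _ => ?_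
  simp only [zS]
  rw [add_mul, mul_add, add_div, add_assoc, sum_mul S, mul_sum S, sum_div S, ← sum_add_distrib]
  congr 1
  · ring
  · refine sum_congr rfl fun t ht => ?_
    have a1 : z - n ≠ 0 := sub_ne_zero.2 (hz n)
    have a2 : z - lam t ≠ 0 := sub_ne_zero.2 (hz' t ht)
    have a3 : lam t - n ≠ 0 := sub_ne_zero.2 (hni t ht n)
    have a4 : (n : ℂ) - lam t ≠ 0 := sub_ne_zero.2 (hni t ht n).symm
    generalize rS S lam t * (∑ u ∈ insert 0 S, k u / (lam t - u)) = c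
    field_simp
    ring

end Pool.Agent.H590Z.HC
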