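import Mathlib

set_option autoImplicit false

/-!
Core lemma for convex-cyclic operators of the form `-16 (1 - K)` and `4 i (1 - K)`, `K` small.
-/

namespace Pool.Agent.H481Z.CC

open Set Filter Topology

section Alg

variable {A : Type*} [NormedRing A] [NormedAlgebra ℝ A]

theorem all_scalars (h1 : ‖(1 : A)‖ ≤ 1) (D : Set A) (hcl : IsClosed D) (hcv : Convex ℝ D)
    (hmul : ∀ a ∈ D, ∀ b ∈ D, a * b ∈ D) (hone : (1 : A) ∈ D) (s : A) (hs : ‖s‖ ≤ 1 / 8)
    (hU : (-16 : ℝ) • (1 - s) ∈ D) (t : ℝ) : t • (1 : A) ∈ D := by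
  have hds : (16 / 17 : ℝ) • s ∈ D := by
    have := hcv hone hU (a := 16 / 17) (b := 1 / 17) (by norm_num) (by norm_num) (by norm_num)
    convert this using 1
    module
  have hpow : ∀ d ∈ D, ∀ k : ℕ, d ^ k ∈ D := by
    intro d hd k
    induction k with
    | zero => simpa using hone
    | succ k ih => rw [pow_succ]; exact hmul _ ih _ hd
  have h0 : (0 : A) ∈ D := by
    have hn : ‖(16 / 17 : ℝ) • s‖ < 1 := by
      rw [norm_smul, Real.norm_of_nonneg (by norm_num)]; nlinarith [norm_nonneg s]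
    exact hcl.mem_of_tendsto (tendsto_pow_atTop_nhds_zero_of_norm_lt_one hn)
      (Eventually.of_forall (hpow _ hds))
  have hstar : ∀ r : ℝ, 0 ≤ r → r ≤ 1 → ∀ d ∈ D, r • d ∈ D := by
    intro r h0r hr1 d hd
    have := hcv hd h0 (a := r) (b := 1 - r) h0r (by linarith) (by ring)
    simpa using this
  have hadd : ∀ (l : ℝ), 0 < l → ∀ a b : A, l⁻¹ • a ∈ D → l⁻¹ • b ∈ D → (2 * l)⁻¹ • (a + b) ∈ D := by
    intro l hl a b ha hb
    have := hcv ha hb (a := 1 / 2) (b := 1 / 2) (by norm_num) (by norm_num) (by norm_num)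
    convert this using 1
    rw [mul_inv]
    module
  set n : A := -(1 - s) with hn
  have hnn : ‖n‖ ≤ 9 / 8 := by
    rw [hn, norm_neg]
    exact (norm_sub_le _ _).trans (by linarith)
  have hnD : (16 : ℝ) • n ∈ D := by
    convert hU using 1
    rw [hn]; module
  have key : ∀ m N : ℕ, ∃ a : A, ((1 / 8 : ℝ) ^ m * (17 / 8) ^ N)⁻¹ • a ∈ D ∧
      ‖((-1 : ℝ) ^ m) • (1 : A) - a‖ ≤ (9 / 4 : ℝ) ^ m * (1 / 4) ^ N := by
    intro m
    induction m with
    | zero =>
      intro N
      refine ⟨1, ?_, by simp⟩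
      refine hstar _ (by positivity) ?_ _ hone
      rw [pow_zero, one_mul]
      exact inv_le_one_of_one_le₀ (one_le_pow₀ (by norm_num))
    | succ m ihm =>
      intro N
      induction N with
      | zero =>
        refine ⟨0, by simpa using h0, ?_⟩
        rw [sub_zero, norm_smul, norm_pow, norm_neg, norm_one, one_pow, one_mul, pow_zero, mul_one]
        exact h1.trans (one_le_pow₀ (by norm_num))
      | succ N ihN =>
        obtain ⟨a, ha1, ha2⟩ := ihm (N + 1)
        obtain ⟨b, hb1, hb2⟩ := ihN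
        refine ⟨n * a + s * b, ?_, ?_⟩
        · have hp : (0 : ℝ) < (1 / 8 : ℝ) ^ m * (17 / 8) ^ N := by positivity
          have e1 := hmul _ hnD _ ha1
          have e2 := hmul _ hds _ hb1
          rw [smul_mul_smul_comm] at e1 e2
          have := hadd ((1 / 8 : ℝ) ^ m * (17 / 8) ^ N * (17 / 128)) (by positivity) (n * a) (s * b)
            (by convert e1 using 2; rw [pow_succ]; field_simp; norm_num)
            (by convert e2 using 2; rw [pow_succ]; field_simp; norm_num)
          convert this using 3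
          rw [pow_succ, pow_succ]; ring
        · have e : ((-1 : ℝ) ^ (m + 1)) • (1 : A) - (n * a + s * b) =
              n * (((-1 : ℝ) ^ m) • (1 : A) - a) + s * (((-1 : ℝ) ^ (m + 1)) • (1 : A) - b) := by
            rw [mul_sub, mul_sub, mul_smul_comm, mul_smul_comm, mul_one, mul_one, pow_succ, hn]
            module
          rw [e]
          refine (norm_add_le _ _).trans ?_
          have e1 : ‖n * (((-1 : ℝ) ^ m) • (1 : A) - a)‖ ≤
              9 / 8 * ((9 / 4 : ℝ) ^ m * (1 / 4) ^ (N + 1)) :=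
            (norm_mul_le _ _).trans (by gcongr)
          have e2 : ‖s * (((-1 : ℝ) ^ (m + 1)) • (1 : A) - b)‖ ≤
              1 / 8 * ((9 / 4 : ℝ) ^ (m + 1) * (1 / 4) ^ N) :=
            (norm_mul_le _ _).trans (by gcongr)
          refine (add_le_add e1 e2).trans (le_of_eq ?_)
          rw [pow_succ, pow_succ]; ring
  -- conclusion
  have fin : ∀ (e : ℕ) (t : ℝ), 0 ≤ t → (t * (-1) ^ e) • (1 : A) ∈ D := by
    intro e t ht
    choose a ha1 ha2 using fun k : ℕ => key (2 * k + e) (2 * k + e)
    have hk : Tendsto (fun k : ℕ => 2 * k + e) atTop atTop :=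
      tendsto_atTop_mono (fun k => by simp only [id]; omega) tendsto_id
    have hlim : Tendsto (fun k => t • a k) atTop (𝓝 ((t * (-1) ^ e) • (1 : A))) := by
      rw [mul_smul]
      refine Tendsto.const_smul ?_ t
      rw [tendsto_iff_norm_sub_tendsto_zero]
      have h9 : Tendsto (fun k : ℕ => (9 / 16 : ℝ) ^ (2 * k + e)) atTop (𝓝 0) :=
        (tendsto_pow_atTop_nhds_zero_of_lt_one (by norm_num) (by norm_num)).comp hk
      refine squeeze_zero (fun _ => norm_nonneg _) (fun k => ?_) h9
      have := ha2 k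
      rw [pow_add (-1 : ℝ), pow_mul, ← mul_pow] at this
      norm_num at this
      rw [norm_sub_rev]
      exact this
    have h17 : Tendsto (fun k : ℕ => t * (17 / 64 : ℝ) ^ (2 * k + e)) atTop (𝓝 (t * 0)) :=
      ((tendsto_pow_atTop_nhds_zero_of_lt_one (by norm_num) (by norm_num)).comp hk).const_mul t
    rw [mul_zero] at h17
    refine hcl.mem_of_tendsto hlim ?_
    filter_upwards [h17 (Iic_mem_nhds one_pos)] with k hk1
    have h2 := hstar _ (by positivity) hk1 _ (ha1 k)
    rw [← mul_pow, smul_smul] at h2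
    convert h2 using 2
    have : (1 / 8 * (17 / 8) : ℝ) = 17 / 64 := by norm_num
    rw [this]
    field_simp
  rcases le_total 0 t with ht | ht
  · simpa using fin 0 t ht
  · simpa using fin 1 (-t) (by linarith)

/-- The closed convex hull of the powers of `T`. -/
def hull (T : A) : Set A := closure (convexHull ℝ (range fun n : ℕ => T ^ n))

theorem hull_min (T : A) (E : Set A) (h1 : IsClosed E) (h2 : Convex ℝ E) (h3 : ∀ n : ℕ, T ^ n ∈ E) :
    hull T ⊆ E := closure_minimal (convexHull_min (range_subset_iff.2 h3) h2) h1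

theorem pow_mem_hull (T : A) (n : ℕ) : T ^ n ∈ hull T :=
  subset_closure (subset_convexHull ℝ _ ⟨n, rfl⟩)

theorem convex_hull (T : A) : Convex ℝ (hull T) := (convex_convexHull ℝ _).closure

theorem hull_mul (T : A) : ∀ a ∈ hull T, ∀ b ∈ hull T, a * b ∈ hull T := by
  have hc := convex_hull T
  have h1 : ∀ n : ℕ, ∀ b ∈ hull T, T ^ n * b ∈ hull T := by
    intro n
    refine hull_min T {b | T ^ n * b ∈ hull T} (isClosed_closure.preimage (by fun_prop)) ?_ ?_
    · intro a ha b hb s t hs ht hst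
      have := hc ha hb hs ht hst
      simpa [mul_add] using this
    · intro m
      have := pow_mem_hull T (n + m)
      rwa [pow_add] at this
  intro a ha b hb
  revert a
  refine hull_min T {a | a * b ∈ hull T} (isClosed_closure.preimage (by fun_prop)) ?_ ?_
  · intro a ha b hb s t hs ht hst
    have := hc ha hb hs ht hst
    simpa [add_mul] using this
  · intro m
    exact h1 m b hb

/-- The elements all of whose real multiples lie in the hull. -/
def lin (T : A) : Set A := {a | ∀ t : ℝ, t • a ∈ hull T}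

theorem isClosed_lin (T : A) : IsClosed (lin T) := by
  have : lin T = ⋂ t : ℝ, (fun a => t • a) ⁻¹' hull T := by ext a; simp [lin]
  rw [this]
  exact isClosed_iInter fun t => isClosed_closure.preimage (by fun_prop)

theorem lin_sub (T : A) : lin T ⊆ hull T := fun a ha => by simpa using ha 1

theorem lin_smul (T : A) (c : ℝ) {a : A} (ha : a ∈ lin T) : c • a ∈ lin T := fun t => by
  rw [smul_smul]; exact ha _

theorem lin_add (T : A) {a b : A} (ha : a ∈ lin T) (hb : b ∈ lin T) : a + b ∈ lin T := fun t => by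
  have := convex_hull T (ha (2 * t)) (hb (2 * t)) (a := 1 / 2) (b := 1 / 2) (by norm_num)
    (by norm_num) (by norm_num)
  convert this using 1
  module

theorem lin_mul (T : A) {a b : A} (ha : a ∈ lin T) (hb : b ∈ hull T) : a * b ∈ lin T := fun t => by
  rw [← smul_mul_assoc]; exact hull_mul T _ (ha t) _ hb

theorem lin_pow (T : A) (h1 : (1 : A) ∈ lin T) {a : A} (ha : a ∈ lin T) (n : ℕ) :
    a ^ n ∈ lin T := by
  induction n with
  | zero => simpa using h1
  | succ n ih => rw [pow_succ]; exact lin_mul T ih (lin_sub T ha)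

theorem real_case (h1 : ‖(1 : A)‖ ≤ 1) (s : A) (hs : ‖s‖ ≤ 1 / 8) (T : A)
    (hT : T = (-16 : ℝ) • (1 - s)) : (1 : A) ∈ lin T ∧ s ∈ lin T := by
  have hTh : T ∈ hull T := by simpa using pow_mem_hull T 1
  have hone : (1 : A) ∈ lin T := all_scalars h1 (hull T) isClosed_closure (convex_hull T)
    (hull_mul T) (by simpa using pow_mem_hull T 0) s hs (hT ▸ hTh)
  refine ⟨hone, ?_⟩
  have h2 : T ∈ lin T := by simpa using lin_mul T hone hTh
  have := lin_add T hone (lin_smul T (1 / 16) h2)
  convert this using 1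
  rw [hT]; module

theorem complex_case (h1 : ‖(1 : A)‖ ≤ 1) (s j : A) (hs : ‖s‖ ≤ 1 / 32) (hj : j * j = -1)
    (hjs : j * s = s * j) (T : A) (hT : T = (4 : ℝ) • (j * (1 - s))) :
    (1 : A) ∈ lin T ∧ s ∈ lin T ∧ j ∈ lin T := by
  have hTh : T ∈ hull T := by simpa using pow_mem_hull T 1
  set s' : A := (2 : ℝ) • s - s * s with hs'
  have hT2 : T * T = (-16 : ℝ) • (1 - s') := by
    have e : j * (1 - s) * (j * (1 - s)) = -((1 - s) * (1 - s)) := by
      have : (1 - s) * j = j * (1 - s) := by rw [sub_mul, mul_sub, hjs, one_mul, mul_one]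
      rw [mul_assoc j, ← mul_assoc (1 - s), this, ← mul_assoc, ← mul_assoc, hj]
      noncomm_ring
    rw [hT, smul_mul_smul_comm, e, hs']
    have : (1 - s) * (1 - s) = 1 - ((2 : ℝ) • s - s * s) := by
      rw [two_smul]; noncomm_ring
    rw [this]; module
  have hns' : ‖s'‖ ≤ 1 / 8 := by
    refine (norm_sub_le _ _).trans ?_
    rw [norm_smul, Real.norm_of_nonneg (by norm_num)]
    have := norm_mul_le s s
    nlinarith [norm_nonneg s]
  have hone : (1 : A) ∈ lin T := all_scalars h1 (hull T) isClosed_closure (convex_hull T)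
    (hull_mul T) (by simpa using pow_mem_hull T 0) s' hns' (hT2 ▸ hull_mul T _ hTh _ hTh)
  have h2 : T ∈ lin T := by simpa using lin_mul T hone hTh
  have hs'l : s' ∈ lin T := by
    have := lin_add T hone (lin_smul T (1 / 16) (lin_mul T h2 hTh))
    convert this using 1
    rw [hT2]; module
  have hit : ∀ k : ℕ, ∃ y ∈ lin T, y * s = s * y ∧ ‖y - s‖ ≤ (1 / 2 : ℝ) ^ k / 32 := by
    intro k
    induction k with
    | zero => exact ⟨0, by simpa using lin_smul T 0 hone, by simp, by simpa using hs⟩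
    | succ k ih =>
      obtain ⟨y, hy1, hy2, hy3⟩ := ih
      refine ⟨(1 / 2 : ℝ) • (s' + y * y), lin_smul T _ (lin_add T hs'l
        (lin_mul T hy1 (lin_sub T hy1))), ?_, ?_⟩
      · rw [smul_mul_assoc, mul_smul_comm, hs', two_smul]
        congr 1
        have : y * y * s = s * (y * y) := by
          rw [mul_assoc, hy2, ← mul_assoc, hy2, mul_assoc]
        rw [add_mul, mul_add, this]
        noncomm_ring
      · have e : (1 / 2 : ℝ) • (s' + y * y) - s = (1 / 2 : ℝ) • ((y - s) * (y + s)) := by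
          have : (y - s) * (y + s) = y * y - s * s := by
            rw [sub_mul, mul_add, mul_add, hy2]; abel
          rw [this, hs']; module
        rw [e, norm_smul, Real.norm_of_nonneg (by norm_num), pow_succ]
        have h3 : (1 / 2 : ℝ) ^ k ≤ 1 := pow_le_one₀ (by norm_num) (by norm_num)
        have h4 : ‖y + s‖ ≤ 1 := by
          have : y + s = (y - s) + s + s := by abel
          rw [this]
          refine (norm_add₃_le).trans ?_
          linarith
        have h5 : ‖(y - s) * (y + s)‖ ≤ (1 / 2 : ℝ) ^ k / 32 * 1 :=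
          (norm_mul_le _ _).trans (by gcongr)
        linarith
  have hsl : s ∈ lin T := by
    choose y hy1 _ hy3 using hit
    refine (isClosed_lin T).mem_of_tendsto (b := atTop) (f := y) ?_ (Eventually.of_forall hy1)
    rw [tendsto_iff_norm_sub_tendsto_zero]
    have h9 : Tendsto (fun k : ℕ => (1 / 2 : ℝ) ^ k / 32) atTop (𝓝 (0 / 32)) :=
      (tendsto_pow_atTop_nhds_zero_of_lt_one (by norm_num) (by norm_num)).div_const _
    rw [zero_div] at h9
    exact squeeze_zero (fun _ => norm_nonneg _) hy3 h9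
  refine ⟨hone, hsl, ?_⟩
  have hk : ∀ k : ℕ, j * (1 - s ^ k) ∈ lin T := by
    intro k
    induction k with
    | zero => simpa using lin_smul T 0 hone
    | succ k ih =>
      have := lin_add T ih (lin_mul T (lin_smul T (1 / 4) h2) (lin_sub T (lin_pow T hone hsl k)))
      convert this using 1
      rw [hT, smul_smul]
      norm_num
      rw [pow_succ']
      noncomm_ring
  have hlim : Tendsto (fun k : ℕ => j * (1 - s ^ k)) atTop (𝓝 (j * (1 - 0))) :=
    (tendsto_const_nhds.sub
      (tendsto_pow_atTop_nhds_zero_of_norm_lt_one (by linarith))).const_mul j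
  rw [sub_zero, mul_one] at hlim
  exact (isClosed_lin T).mem_of_tendsto hlim (Eventually.of_forall hk)

end Alg

section Op

variable {𝕜 X : Type*} [RCLike 𝕜] [NormedAddCommGroup X] [NormedSpace 𝕜 X] [NormedSpace ℝ X]
  [IsScalarTower ℝ 𝕜 X]

/-- For small `K` there is a scalar `a` with `a ^ 2` real and `a ^ 2 > 0` in the real case, such
that every `K`-cyclic vector is convex-cyclic for `a (1 - K)`. -/
theorem core (K : X →L[𝕜] X) (hK : ‖K‖ ≤ 1 / 32) :
    ∃ a : 𝕜, a ≠ 0 ∧ ((RCLike.I : 𝕜) = 0 ∧ a * a = 256 ∨ (RCLike.I : 𝕜) ≠ 0 ∧ a * a = -16) ∧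
      ∀ x : X, Dense (Submodule.span 𝕜 (range fun n : ℕ => (K ^ n) x) : Set X) →
        Dense (convexHull ℝ (range fun n : ℕ => ((a • (1 - K)) ^ n) x)) := by
  set s : X →L[ℝ] X := K.restrictScalars ℝ with hs
  set j : X →L[ℝ] X := ((RCLike.I : 𝕜) • (1 : X →L[𝕜] X)).restrictScalars ℝ with hj
  have hns : ‖s‖ ≤ 1 / 32 := by rw [hs, ContinuousLinearMap.norm_restrictScalars]; exact hK
  have h1 : ‖(1 : X →L[ℝ] X)‖ ≤ 1 := ContinuousLinearMap.norm_id_le
  have hpw : ∀ (S : X →L[𝕜] X) (n : ℕ) (x : X), ((S.restrictScalars ℝ) ^ n) x = (S ^ n) x := by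
    intro S n
    induction n with
    | zero => intro x; rfl
    | succ n ih => intro x; rw [pow_succ, pow_succ]; exact ih _
  have fin : ∀ S : X →L[𝕜] X, (1 : X →L[ℝ] X) ∈ lin (S.restrictScalars ℝ) →
      s ∈ lin (S.restrictScalars ℝ) → j ∈ lin (S.restrictScalars ℝ) →
      ∀ x : X, Dense (Submodule.span 𝕜 (range fun n : ℕ => (K ^ n) x) : Set X) →
        Dense (convexHull ℝ (range fun n : ℕ => (S ^ n) x)) := by
    intro S hone hsl hjl x hx
    set T := S.restrictScalars ℝ with hT
    set C := closure (convexHull ℝ (range fun n : ℕ => (S ^ n) x)) with hC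
    have hD : hull T ⊆ {B | B x ∈ C} := by
      refine hull_min T _ (isClosed_closure.preimage (by fun_prop)) ?_ ?_
      · intro a ha b hb s t hs ht hst
        exact (convex_convexHull ℝ _).closure ha hb hs ht hst
      · intro n
        change (T ^ n) x ∈ C
        rw [hpw]
        exact subset_closure (subset_convexHull ℝ _ ⟨n, rfl⟩)
    let W : Submodule 𝕜 X :=
      { carrier := {w | ∃ B ∈ lin T, B x = w}
        add_mem' := by
          rintro _ _ ⟨B, hB, rfl⟩ ⟨B', hB', rfl⟩
          exact ⟨B + B', lin_add T hB hB', rfl⟩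
        zero_mem' := ⟨0, by simpa using lin_smul T 0 hone, rfl⟩
        smul_mem' := by
          rintro c _ ⟨B, hB, rfl⟩
          refine ⟨RCLike.re c • B + RCLike.im c • (j * B), lin_add T (lin_smul T _ hB)
            (lin_smul T _ (lin_mul T hjl (lin_sub T hB))), ?_⟩
          change RCLike.re c • B x + RCLike.im c • ((RCLike.I : 𝕜) • B x) = c • B x
          conv_rhs => rw [← RCLike.re_add_im c]
          rw [add_smul, mul_smul, RCLike.real_smul_eq_coe_smul (K := 𝕜),
            RCLike.real_smul_eq_coe_smul (K := 𝕜)] }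
    have hW : Submodule.span 𝕜 (range fun n : ℕ => (K ^ n) x) ≤ W := by
      rw [Submodule.span_le]
      rintro _ ⟨n, rfl⟩
      exact ⟨s ^ n, lin_pow T hone hsl n, hpw K n x⟩
    have hWC : (W : Set X) ⊆ C := by
      rintro _ ⟨B, hB, rfl⟩
      exact hD (lin_sub T hB)
    exact dense_closure.1 (hx.mono (subset_trans hW hWC))
  by_cases hI : (RCLike.I : 𝕜) = 0
  · refine ⟨-16, by norm_num, Or.inl ⟨hI, by norm_num⟩, ?_⟩
    have hT : (((-16 : 𝕜) • (1 - K)).restrictScalars ℝ : X →L[ℝ] X) = (-16 : ℝ) • (1 - s) := by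
      ext x
      change (-16 : 𝕜) • (x - K x) = (-16 : ℝ) • (x - K x)
      have e : ((-16 : ℝ) : 𝕜) = -16 := by push_cast; rfl
      rw [RCLike.real_smul_eq_coe_smul (K := 𝕜), e]
    obtain ⟨h2, h3⟩ := real_case h1 s (by linarith) _ hT
    refine fin _ h2 h3 ?_
    have : j = 0 := by
      ext x
      simp [hj, hI]
    rw [this]
    simpa using lin_smul _ 0 h2
  · have hII : (RCLike.I : 𝕜) * RCLike.I = -1 := RCLike.I_mul_I_of_nonzero hI
    refine ⟨4 * RCLike.I, mul_ne_zero (by norm_num) hI, Or.inr ⟨hI, ?_⟩, ?_⟩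
    · linear_combination (16 : 𝕜) * hII
    have hT : (((4 * RCLike.I : 𝕜) • (1 - K)).restrictScalars ℝ : X →L[ℝ] X) =
        (4 : ℝ) • (j * (1 - s)) := by
      ext x
      change (4 * RCLike.I : 𝕜) • (x - K x) = (4 : ℝ) • ((RCLike.I : 𝕜) • (x - K x))
      have e : ((4 : ℝ) : 𝕜) = 4 := by push_cast; rfl
      rw [RCLike.real_smul_eq_coe_smul (K := 𝕜), mul_smul, e]
    obtain ⟨h2, h3, h4⟩ := complex_case h1 s j hns (by
      ext x
      change (RCLike.I : 𝕜) • ((RCLike.I : 𝕜) • x) = -x
      rw [smul_smul, hII, neg_one_smul]) (by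
      ext x
      change (RCLike.I : 𝕜) • K x = K ((RCLike.I : 𝕜) • x)
      rw [map_smul]) _ hT
    exact fin _ h2 h3 h4

end Op

end Pool.Agent.H481Z.CC
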