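import Mathlib

set_option autoImplicit false

namespace Pool.Agent.H481Z.CC

/-- The set of convex-cyclic vectors of a bounded operator `T`: the vectors `x` such that the
convex hull of the orbit `{T ^ n x : n ≥ 0}` is dense. -/
def convexCyclicVectors {𝕜 X : Type*} [RCLike 𝕜] [NormedAddCommGroup X] [NormedSpace 𝕜 X]
    [NormedSpace ℝ X] (T : X →L[𝕜] X) : Set X :=
  {x | Dense (convexHull ℝ (Set.range fun n : ℕ => (T ^ n) x))}

end Pool.Agent.H481Z.CC
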