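import Mathlib
import Pool.Agent.H481Z.CCore

set_option autoImplicit false

/-!
A convex-cyclic operator on `ℓ^p` whose convex-cyclic vectors are not dense.
-/

namespace Pool.Agent.H481Z.CC

open Set Filter Topology
open scoped ENNReal

variable {𝕜 : Type*} [RCLike 𝕜] {p : ℝ≥0∞}

/-- The forward shift of a sequence. -/
def sh (f : ℕ → 𝕜) : ℕ → 𝕜
  | 0 => 0
  | n + 1 => f n

theorem hasSum_sh (hp : 0 < p.toReal) (f : lp (fun _ : ℕ => 𝕜) p) :
    HasSum (fun i => ‖sh f i‖ ^ p.toReal) (‖f‖ ^ p.toReal) := by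
  rw [← hasSum_nat_add_iff' 1]
  simpa [sh, Real.zero_rpow hp.ne'] using lp.hasSum_norm hp f

/-- The forward shift as a linear map. -/
noncomputable def shLin (hp : 0 < p.toReal) :
    lp (fun _ : ℕ => 𝕜) p →ₗ[𝕜] lp (fun _ : ℕ => 𝕜) p where
  toFun f := ⟨sh f, memℓp_gen (hasSum_sh hp f).summable⟩
  map_add' f g := by
    ext n
    change sh (f + g) n = sh f n + sh g n
    cases n <;> simp [sh]
  map_smul' c f := by
    ext n
    change sh (c • f) n = c • sh f n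
    cases n <;> simp [sh]

theorem norm_shLin (hp : 0 < p.toReal) (f : lp (fun _ : ℕ => 𝕜) p) : ‖shLin hp f‖ ≤ ‖f‖ :=
  lp.norm_le_of_tsum_le hp (lp.norm_nonneg' f) (hasSum_sh hp f).tsum_eq.le

variable [Fact (1 ≤ p)]

/-- The forward shift. -/
noncomputable def shOp (hp : 0 < p.toReal) :
    lp (fun _ : ℕ => 𝕜) p →L[𝕜] lp (fun _ : ℕ => 𝕜) p :=
  (shLin hp).mkContinuous 1 fun f => by simpa using norm_shLin hp f

theorem norm_shOp (hp : 0 < p.toReal) : ‖(shOp hp : lp (fun _ : ℕ => 𝕜) p →L[𝕜] _)‖ ≤ 1 :=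
  LinearMap.mkContinuous_norm_le _ zero_le_one _

theorem shOp_apply (hp : 0 < p.toReal) (f : lp (fun _ : ℕ => 𝕜) p) (n : ℕ) :
    shOp hp f n = sh f n := rfl

theorem shOp_single (hp : 0 < p.toReal) (n : ℕ) :
    shOp hp (lp.single p n (1 : 𝕜) : lp (fun _ : ℕ => 𝕜) p) = lp.single p (n + 1) (1 : 𝕜) := by
  ext m
  rw [shOp_apply]
  cases m with
  | zero => simp [sh, lp.single_apply]
  | succ m => simp [sh, lp.single_apply, Pi.single_apply]

theorem coord_le (f : lp (fun _ : ℕ => 𝕜) p) (n : ℕ) : ‖f n‖ ≤ ‖f‖ :=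
  lp.norm_apply_le_norm (zero_lt_one.trans_le Fact.out).ne' f n

theorem term_le (f : lp (fun _ : ℕ => 𝕜) p) {z : 𝕜} (hz : ‖z‖ ≤ 1 / 2) (n : ℕ) :
    ‖f n * z ^ n‖ ≤ ‖f‖ * (1 / 2) ^ n := by
  rw [norm_mul, norm_pow]
  gcongr
  exact coord_le f n

theorem summable_ev (f : lp (fun _ : ℕ => 𝕜) p) {z : 𝕜} (hz : ‖z‖ ≤ 1 / 2) :
    Summable fun n => f n * z ^ n :=
  Summable.of_norm_bounded (summable_geometric_two.mul_left ‖f‖) (term_le f hz)

theorem norm_ev (f : lp (fun _ : ℕ => 𝕜) p) {z : 𝕜} (hz : ‖z‖ ≤ 1 / 2) :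
    ‖∑' n, f n * z ^ n‖ ≤ 2 * ‖f‖ := by
  have := tsum_of_norm_bounded (hasSum_geometric_two.mul_left ‖f‖) (term_le f hz)
  linarith

/-- Evaluation of the power series at a point of the disc of radius one half. -/
noncomputable def ev {z : 𝕜} (hz : ‖z‖ ≤ 1 / 2) : lp (fun _ : ℕ => 𝕜) p →L[𝕜] 𝕜 :=
  LinearMap.mkContinuous
    { toFun := fun f : lp (fun _ : ℕ => 𝕜) p => ∑' n, f n * z ^ n
      map_add' := fun f g => by
        rw [← (summable_ev f hz).tsum_add (summable_ev g hz)]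
        simp [add_mul]
      map_smul' := fun c f => by
        simp [mul_assoc, tsum_mul_left] } 2 fun f => norm_ev f hz

theorem ev_apply {z : 𝕜} (hz : ‖z‖ ≤ 1 / 2) (f : lp (fun _ : ℕ => 𝕜) p) :
    ev hz f = ∑' n, f n * z ^ n := rfl

theorem ev_single {z : 𝕜} (hz : ‖z‖ ≤ 1 / 2) (k : ℕ) :
    ev hz (lp.single p k (1 : 𝕜) : lp (fun _ : ℕ => 𝕜) p) = z ^ k := by
  rw [ev_apply, tsum_eq_single k]
  · simp
  · intro n hn
    simp [lp.single_apply, hn]

theorem ev_shOp (hp : 0 < p.toReal) {z : 𝕜} (hz : ‖z‖ ≤ 1 / 2) (f : lp (fun _ : ℕ => 𝕜) p) :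
    ev hz (shOp hp f) = z * ev hz f := by
  rw [ev_apply, ev_apply, (summable_ev (shOp hp f) hz).tsum_eq_zero_add, ← tsum_mul_left]
  simp only [shOp_apply, sh, zero_mul, zero_add]
  refine tsum_congr fun n => ?_
  ring

theorem pow_sub_le {z w : 𝕜} (hz : ‖z‖ ≤ 1 / 2) (hw : ‖w‖ ≤ 1 / 2) (n : ℕ) :
    ‖z ^ n - w ^ n‖ ≤ 4 * ‖z - w‖ * (3 / 4) ^ n := by
  induction n with
  | zero => simp
  | succ n ih =>
    have e : z ^ (n + 1) - w ^ (n + 1) = z * (z ^ n - w ^ n) + w ^ n * (z - w) := by ring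
    rw [e]
    refine (norm_add_le _ _).trans ?_
    rw [norm_mul, norm_mul, norm_pow, pow_succ]
    have h1 : ‖w‖ ^ n ≤ (3 / 4) ^ n := by gcongr; linarith
    have h2 : ‖z‖ * ‖z ^ n - w ^ n‖ ≤ 1 / 2 * (4 * ‖z - w‖ * (3 / 4) ^ n) := by gcongr
    have h3 : ‖w‖ ^ n * ‖z - w‖ ≤ (3 / 4) ^ n * ‖z - w‖ := by gcongr
    nlinarith

theorem exists_zero (f : lp (fun _ : ℕ => 𝕜) p)
    (hf : ‖f - lp.single p 1 (1 : 𝕜)‖ ≤ 1 / 32) : ∃ (z : 𝕜) (hz : ‖z‖ ≤ 1 / 2), ev hz f = 0 := by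
  set g := f - lp.single p 1 (1 : 𝕜) with hg
  set G : 𝕜 → 𝕜 := fun z => -∑' n, g n * z ^ n with hG
  have hlip : ∀ z w : 𝕜, ‖z‖ ≤ 1 / 2 → ‖w‖ ≤ 1 / 2 → ‖G z - G w‖ ≤ 1 / 2 * ‖z - w‖ := by
    intro z w hz hw
    have e : G z - G w = ∑' n, g n * (w ^ n - z ^ n) := by
      simp only [hG, mul_sub]
      rw [(summable_ev g hw).tsum_sub (summable_ev g hz)]
      ring
    rw [e]
    have hs := (hasSum_geometric_of_lt_one (r := 3 / 4) (by norm_num) (by norm_num)).mul_left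
      (1 / 32 * (4 * ‖z - w‖))
    have := tsum_of_norm_bounded hs (f := fun n => g n * (w ^ n - z ^ n)) fun n => by
      rw [norm_mul, norm_sub_rev, mul_assoc]
      exact mul_le_mul ((coord_le g n).trans hf) (pow_sub_le hz hw n) (norm_nonneg _) (by norm_num)
    refine this.trans (le_of_eq ?_)
    norm_num; ring
  have hmaps : ∀ z : 𝕜, ‖z‖ ≤ 1 / 2 → ‖G z‖ ≤ 1 / 2 := by
    intro z hz
    simp only [hG, norm_neg]
    linarith [norm_ev g hz]
  have hcont : ContinuousOn G (Metric.closedBall (0 : 𝕜) (1 / 2)) := by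
    refine (LipschitzOnWith.of_dist_le_mul (K := 1 / 2) fun z hz w hw => ?_).continuousOn
    rw [mem_closedBall_zero_iff] at hz hw
    rw [dist_eq_norm, dist_eq_norm]
    simpa using hlip z w hz hw
  obtain ⟨z, hz, hmin⟩ := (isCompact_closedBall (0 : 𝕜) (1 / 2)).exists_isMinOn
    ⟨0, by simp⟩ (f := fun z => ‖z - G z‖) ((continuousOn_id.sub hcont).norm)
  rw [mem_closedBall_zero_iff] at hz
  have h1 : ‖z - G z‖ ≤ ‖G z - G (G z)‖ := hmin (mem_closedBall_zero_iff.2 (hmaps z hz))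
  have h2 := hlip z (G z) hz (hmaps z hz)
  have h3 : z - G z = 0 := by
    rw [← norm_le_zero_iff]; linarith [norm_nonneg (z - G z)]
  refine ⟨z, hz, ?_⟩
  have e : f = g + lp.single p 1 (1 : 𝕜) := by rw [hg]; abel
  rw [e, map_add, ev_single, pow_one, ev_apply, ← h3, hG]
  ring

theorem lp_example (hp' : p ≠ ⊤) :
    ∃ T : lp (fun _ : ℕ => 𝕜) p →L[𝕜] lp (fun _ : ℕ => 𝕜) p,
      (∃ x, Dense (convexHull ℝ (range fun n : ℕ => (T ^ n) x))) ∧
      ¬ Dense {x | Dense (convexHull ℝ (range fun n : ℕ => (T ^ n) x))} := by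
  have hp : 0 < p.toReal := ENNReal.toReal_pos (zero_lt_one.trans_le Fact.out).ne' hp'
  set K : lp (fun _ : ℕ => 𝕜) p →L[𝕜] lp (fun _ : ℕ => 𝕜) p := (1 / 32 : 𝕜) • shOp hp with hK
  have hKn : ‖K‖ ≤ 1 / 32 := by
    rw [hK, norm_smul]
    have : ‖(1 / 32 : 𝕜)‖ = 1 / 32 := by simp
    rw [this]
    nlinarith [norm_shOp (𝕜 := 𝕜) hp]
  obtain ⟨a, -, -, ha⟩ := core K hKn
  refine ⟨a • (1 - K), ⟨lp.single p 0 (1 : 𝕜), ha _ ?_⟩, ?_⟩
  · have hpow : ∀ n : ℕ, (K ^ n) (lp.single p 0 (1 : 𝕜)) =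
        (1 / 32 : 𝕜) ^ n • lp.single p n (1 : 𝕜) := by
      intro n
      induction n with
      | zero => simp
      | succ n ih =>
        rw [pow_succ', mul_apply_eq_comp, ih, map_smul, hK, smul_apply,
          shOp_single, smul_smul, pow_succ]
    intro f
    refine mem_closure_of_tendsto (lp.hasSum_single hp' f) (Eventually.of_forall fun s => ?_)
    refine Submodule.sum_mem _ fun n _ => ?_
    have e : lp.single p n (f n) = (f n * 32 ^ n) • (K ^ n) (lp.single p 0 (1 : 𝕜)) := by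
      rw [hpow, smul_smul, mul_assoc, ← mul_pow, ← lp.single_smul]
      simp
    rw [e]
    exact Submodule.smul_mem _ _ (Submodule.subset_span ⟨n, rfl⟩)
  · intro hd
    obtain ⟨f, hf1, hf2⟩ := Metric.mem_closure_iff.1 (hd (lp.single p 1 (1 : 𝕜))) (1 / 32)
      (by norm_num)
    rw [dist_comm, dist_eq_norm] at hf2
    obtain ⟨z, hz, hz0⟩ := exists_zero f hf2.le
    have h0 : ∀ n : ℕ, ev hz (((a • (1 - K)) ^ n) f) = 0 := by
      intro n
      induction n with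
      | zero => simpa using hz0
      | succ n ih =>
        rw [pow_succ', mul_apply_eq_comp]
        generalize ((a • (1 - K)) ^ n) f = g at ih
        simp [hK, ev_shOp, ih]
    have hsub : closure (convexHull ℝ (range fun n : ℕ => ((a • (1 - K)) ^ n) f)) ⊆
        {g | ev hz g = 0} := by
      refine closure_minimal (convexHull_min (range_subset_iff.2 h0) ?_)
        (isClosed_eq (ev hz).continuous continuous_const)
      intro u hu v hv s t _ _ _
      simp only [mem_ofPred_eq] at hu hv ⊢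
      rw [map_add, ContinuousLinearMap.map_smul_of_tower, ContinuousLinearMap.map_smul_of_tower,
        hu, hv]
      simp
    have := hsub (hf1 (lp.single p 0 (1 : 𝕜)))
    simp [ev_single] at this

end Pool.Agent.H481Z.CC
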