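import Mathlib
import Pool.Agent.H481Z.CCore

set_option autoImplicit false

/-!
Every nonzero separable Banach space carries a convex-cyclic operator whose square is not
convex-cyclic.
-/

namespace Pool.Agent.H481Z.CC

open Set Filter Topology

variable {𝕜 X : Type*} [RCLike 𝕜] [NormedAddCommGroup X] [NormedSpace 𝕜 X]

theorem exists_pick (φ : X →L[𝕜] 𝕜) (x₀ : X) (hx : φ x₀ = 1) (V : Submodule 𝕜 X) (u : X) :
    ∃ y : X, φ y = 0 ∧ (x₀ ∈ V → u ∈ V ⊔ Submodule.span 𝕜 {y} ∧ (V ≠ ⊤ → y ∉ V) ∧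
      (V = ⊤ → y = 0)) := by
  by_cases hV : x₀ ∈ V
  swap
  · exact ⟨0, by simp, fun h => absurd h hV⟩
  have key : ∀ w : X, w ∉ V → φ (w - φ w • x₀) = 0 ∧ w - φ w • x₀ ∉ V ∧
      w ∈ V ⊔ Submodule.span 𝕜 {w - φ w • x₀} := by
    intro w hw
    refine ⟨by simp [hx], fun h => hw ?_, ?_⟩
    · have := V.add_mem h (V.smul_mem (φ w) hV)
      simpa using this
    · have := Submodule.add_mem_sup (V.smul_mem (φ w) hV)
        (Submodule.mem_span_singleton_self (R := 𝕜) (w - φ w • x₀))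
      simpa using this
  by_cases hu : u ∈ V
  · by_cases hT : V = ⊤
    · exact ⟨0, by simp, fun _ => ⟨Submodule.mem_sup_left hu, fun h => absurd hT h, fun _ => rfl⟩⟩
    · obtain ⟨w, hw⟩ : ∃ w, w ∉ V := by
        by_contra h
        push Not at h
        exact hT (Submodule.eq_top_iff'.2 h)
      obtain ⟨h1, h2, _⟩ := key w hw
      exact ⟨_, h1, fun _ => ⟨Submodule.mem_sup_left hu, fun _ => h2, fun h => absurd h hT⟩⟩
  · obtain ⟨h1, h2, h3⟩ := key u hu
    exact ⟨_, h1, fun _ => ⟨h3, fun _ => h2, fun h => absurd (h ▸ Submodule.mem_top) hu⟩⟩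

theorem exists_fun (V : Submodule 𝕜 X) (hV : V.FG) (y : X) :
    ∃ f : X →L[𝕜] 𝕜, (∀ v ∈ V, f v = 0) ∧ (y ∉ V → f y ≠ 0) := by
  by_cases hy : y ∈ V
  · exact ⟨0, by simp, fun h => absurd hy h⟩
  have : FiniteDimensional 𝕜 V := Module.Finite.iff_fg.2 hV
  have hcl : IsClosed (V : Set X) := V.closed_of_finiteDimensional
  let _ : NormedSpace ℝ X := NormedSpace.restrictScalars ℝ 𝕜 X
  have _ : IsScalarTower ℝ 𝕜 X := IsScalarTower.restrictScalars ℝ 𝕜 X
  have hconv : Convex ℝ (V : Set X) := (V.restrictScalars ℝ).convex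
  obtain ⟨f, u, h1, h2⟩ := RCLike.geometric_hahn_banach_closed_point (𝕜 := 𝕜) hconv hcl hy
  have h0 : 0 < u := by simpa using h1 0 V.zero_mem
  refine ⟨f, fun v hv => ?_, fun _ h => ?_⟩
  · by_contra hne
    have := h1 _ (V.smul_mem ((u : 𝕜) / f v) hv)
    rw [map_smul, smul_eq_mul, div_mul_cancel₀ _ hne] at this
    simp at this
  · rw [h] at h2
    simp at h2
    linarith

theorem exists_cyclic [CompleteSpace X] [TopologicalSpace.SeparableSpace X] [Nontrivial X] :
    ∃ (K : X →L[𝕜] X) (φ : X →L[𝕜] 𝕜) (x₀ : X), ‖K‖ ≤ 1 / 32 ∧ φ x₀ = 1 ∧ (∀ z, φ (K z) = 0) ∧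
      Dense (Submodule.span 𝕜 (range fun n : ℕ => (K ^ n) x₀) : Set X) := by
  obtain ⟨x₁, hx₁⟩ := exists_ne (0 : X)
  obtain ⟨φ, -, hφ⟩ := exists_dual_vector 𝕜 x₁ (norm_ne_zero_iff.2 hx₁)
  have hn : ((‖x₁‖ : ℝ) : 𝕜) ≠ 0 := by simpa using hx₁
  set x₀ : X := ((‖x₁‖ : ℝ) : 𝕜)⁻¹ • x₁ with hx₀
  have hx : φ x₀ = 1 := by rw [hx₀, map_smul, hφ, smul_eq_mul, inv_mul_cancel₀ hn]
  obtain ⟨u, hu⟩ := TopologicalSpace.exists_dense_seq X
  choose pick hp1 hp2 using exists_pick φ x₀ hx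
  obtain ⟨V, hV0, hVs'⟩ : ∃ V : ℕ → Submodule 𝕜 X, V 0 = Submodule.span 𝕜 {x₀} ∧
      ∀ n, V (n + 1) = V n ⊔ Submodule.span 𝕜 {pick (V n) (u n)} :=
    ⟨fun n => Nat.rec (motive := fun _ => Submodule 𝕜 X) (Submodule.span 𝕜 {x₀})
      (fun n W => W ⊔ Submodule.span 𝕜 {pick W (u n)}) n, rfl, fun n => rfl⟩
  let y : ℕ → X := fun n => pick (V n) (u n)
  have hVs : ∀ n, V (n + 1) = V n ⊔ Submodule.span 𝕜 {y n} := hVs'
  have hmono : Monotone V := monotone_nat_of_le_succ fun n => by rw [hVs]; exact le_sup_left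
  have hxV : ∀ n, x₀ ∈ V n := fun n =>
    hmono (Nat.zero_le n) (by rw [hV0]; exact Submodule.mem_span_singleton_self _)
  have hyV : ∀ n, y n ∈ V (n + 1) := fun n => by
    rw [hVs]; exact Submodule.mem_sup_right (Submodule.mem_span_singleton_self _)
  have hfd : ∀ n : ℕ, (V n).FG := by
    intro n
    induction n with
    | zero => rw [hV0]; exact Submodule.fg_span_singleton _
    | succ n ih => rw [hVs]; exact ih.sup (Submodule.fg_span_singleton _)
  choose g hg1 hg2 using fun n => exists_fun (V n) (hfd n) (y n)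
  let f : ℕ → X →L[𝕜] 𝕜 := fun n => Nat.casesOn n φ g
  let ε : ℕ → ℝ := fun n => (1 / 2) ^ n / (64 * (1 + ‖f n‖) * (1 + ‖y n‖))
  have hε : ∀ n, 0 < ε n := fun n => by positivity
  let R : ℕ → X →L[𝕜] X := fun n => ((ε n : ℝ) : 𝕜) • (f n).smulRight (y n)
  have hR : ∀ n, ‖R n‖ ≤ 1 / 64 * (1 / 2) ^ n := by
    intro n
    simp only [R]
    rw [norm_smul, ContinuousLinearMap.norm_smulRight_apply, RCLike.norm_ofReal, abs_of_pos (hε n)]
    have h1 : ‖f n‖ * ‖y n‖ ≤ (1 + ‖f n‖) * (1 + ‖y n‖) := by gcongr <;> linarith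
    calc ε n * (‖f n‖ * ‖y n‖) ≤ ε n * ((1 + ‖f n‖) * (1 + ‖y n‖)) := mul_le_mul_of_nonneg_left h1 (hε n).le
      _ = 1 / 64 * (1 / 2) ^ n := by simp only [ε]; field_simp
  have hsum : Summable R := Summable.of_norm_bounded (summable_geometric_two.mul_left _) hR
  set K : X →L[𝕜] X := ∑' n, R n with hK
  have hKz : ∀ z, HasSum (fun n => R n z) (K z) := fun z =>
    (ContinuousLinearMap.apply 𝕜 X z).hasSum hsum.hasSum
  have hRz : ∀ n z, R n z = (((ε n : ℝ) : 𝕜) * f n z) • y n := fun n z => by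
    simp [R, smul_smul]
  refine ⟨K, φ, x₀, ?_, hx, fun z => ?_, ?_⟩
  · have := tsum_of_norm_bounded (hasSum_geometric_two.mul_left (1 / 64)) hR
    linarith
  · have h1 := φ.hasSum (hKz z)
    have h2 : (fun n => φ (R n z)) = fun _ => 0 := by
      funext n
      rw [hRz, map_smul, hp1]; simp
    rw [h2] at h1
    exact h1.unique hasSum_zero
  · set W := Submodule.span 𝕜 (range fun n : ℕ => (K ^ n) x₀) with hW
    have hKW : ∀ w ∈ W, K w ∈ W := by
      intro w hw
      have : W ≤ W.comap (K : X →ₗ[𝕜] X) := by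
        rw [hW, Submodule.span_le]
        rintro _ ⟨n, rfl⟩
        refine Submodule.subset_span ⟨n + 1, ?_⟩
        simp only [pow_succ']
        rfl
      exact this hw
    have hstep : ∀ n, V n ≤ W → (∃ v ∈ V n, f n v ≠ 0) → y n ∈ W := by
      rintro n hn ⟨v, hv, hfv⟩
      have h1 : HasSum (fun j => R j v) (∑ j ∈ Finset.range (n + 1), R j v) := by
        refine hasSum_sum_of_ne_finset_zero fun j hj => ?_
        obtain ⟨i, rfl⟩ : ∃ i, j = i + 1 := ⟨j - 1, by simp at hj; omega⟩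
        have : f (i + 1) v = 0 := hg1 i v (hmono (by simp at hj; omega) hv)
        rw [hRz, this]; simp
      have h2 := (hKz v).unique h1
      rw [Finset.sum_range_succ] at h2
      have h3 : ∑ j ∈ Finset.range n, R j v ∈ W := by
        refine W.sum_mem fun j hj => ?_
        rw [hRz]
        exact W.smul_mem _ (hn (hmono (by simp at hj; omega) (hyV j)))
      have h4 : R n v ∈ W := by
        have := W.sub_mem (hKW v (hn hv)) h3
        rw [h2] at this
        simpa using this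
      rw [hRz] at h4
      have hne : ((ε n : ℝ) : 𝕜) * f n v ≠ 0 :=
        mul_ne_zero (by simpa using (hε n).ne') hfv
      exact (W.smul_mem_iff hne).1 h4
    have hVW : ∀ n, V n ≤ W := by
      intro n
      induction n with
      | zero =>
        rw [hV0, Submodule.span_le]
        rintro _ rfl
        exact Submodule.subset_span ⟨0, rfl⟩
      | succ n ih =>
        rw [hVs, sup_le_iff, Submodule.span_singleton_le_iff_mem]
        refine ⟨ih, ?_⟩
        by_cases hT : V n = ⊤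
        · exact ih (hT ▸ Submodule.mem_top)
        refine hstep n ih ?_
        cases n with
        | zero => exact ⟨x₀, hxV 0, by change φ x₀ ≠ 0; rw [hx]; exact one_ne_zero⟩
        | succ n =>
          refine ⟨y n, hyV n, hg2 n ((hp2 (V n) (u n) (hxV n)).2.1 fun h => hT ?_)⟩
          exact top_le_iff.1 (h ▸ hmono (Nat.le_succ n))
    refine Dense.mono ?_ hu
    rintro _ ⟨n, rfl⟩
    exact hVW (n + 1) (by rw [hVs]; exact (hp2 (V n) (u n) (hxV n)).1)

theorem square_example [CompleteSpace X] [TopologicalSpace.SeparableSpace X] [Nontrivial X]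
    [NormedSpace ℝ X] [IsScalarTower ℝ 𝕜 X] :
    ∃ S : X →L[𝕜] X, (∃ x, Dense (convexHull ℝ (range fun n : ℕ => (S ^ n) x))) ∧
      ¬ ∃ x, Dense (convexHull ℝ (range fun n : ℕ => ((S ^ 2) ^ n) x)) := by
  obtain ⟨K, φ, x₀, hK, hx, hφK, hd⟩ := exists_cyclic (𝕜 := 𝕜) (X := X)
  obtain ⟨a, -, ha, hc⟩ := core K hK
  refine ⟨a • (1 - K), ⟨x₀, hc x₀ hd⟩, ?_⟩
  have h1 : ∀ z, φ ((a • (1 - K)) z) = a * φ z := fun z => by simp [hφK]
  generalize a • (1 - K) = S at h1
  rintro ⟨x, hx2⟩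
  have h2 : ∀ n : ℕ, φ (((S ^ 2 : X →L[𝕜] X) ^ n) x) = (a * a) ^ n * φ x := by
    intro n
    induction n with
    | zero => simp
    | succ n ih =>
      rw [pow_succ', mul_apply_eq_comp, sq, mul_apply_eq_comp, h1, h1, ← sq, ih]
      ring
  -- a real functional that is of one sign on the orbit and is not zero
  have fin : ∀ c : 𝕜, c ≠ 0 → (∀ n : ℕ, 0 ≤ RCLike.re (c * ((a * a) ^ n * φ x))) → False := by
    intro c hc0 hc
    have hsub : closure (convexHull ℝ (range fun n : ℕ => ((S ^ 2 : X →L[𝕜] X) ^ n) x)) ⊆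
        {z | 0 ≤ RCLike.re (c * φ z)} := by
      refine closure_minimal (convexHull_min (range_subset_iff.2 fun n => ?_) ?_)
        (isClosed_le continuous_const (by fun_prop))
      · change 0 ≤ RCLike.re (c * φ _)
        rw [h2]; exact hc n
      · intro u hu v hv s t hs ht _
        simp only [mem_ofPred_eq] at hu hv ⊢
        rw [map_add, ContinuousLinearMap.map_smul_of_tower, ContinuousLinearMap.map_smul_of_tower,
          mul_add, mul_smul_comm, mul_smul_comm, map_add, RCLike.smul_re, RCLike.smul_re]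
        positivity
    have := hsub (hx2 ((-c⁻¹) • x₀))
    simp only [mem_ofPred_eq, map_smul, hx, smul_eq_mul, mul_one, mul_neg,
      mul_inv_cancel₀ hc0] at this
    simp at this
    linarith
  by_cases h0 : φ x = 0
  · exact fin 1 one_ne_zero fun n => by simp [h0]
  rcases ha with ⟨_, ha⟩ | ⟨hI, ha⟩
  · refine fin (φ x)⁻¹ (inv_ne_zero h0) fun n => ?_
    have e : (φ x)⁻¹ * ((a * a) ^ n * φ x) = (((256 : ℝ) ^ n : ℝ) : 𝕜) := by
      rw [ha]; push_cast; field_simp
    rw [e, RCLike.ofReal_re]; positivity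
  · refine fin (RCLike.I * (φ x)⁻¹) (mul_ne_zero hI (inv_ne_zero h0)) fun n => ?_
    have e : RCLike.I * (φ x)⁻¹ * ((a * a) ^ n * φ x) = (((-16 : ℝ) ^ n : ℝ) : 𝕜) * RCLike.I := by
      rw [ha]; push_cast; field_simp
    rw [e, RCLike.re_ofReal_mul]; simp

end Pool.Agent.H481Z.CC
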