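import Mathlib
import Pool.Agent.H82Z.Kak.St

set_option autoImplicit false

namespace Pool.Agent.H481Z.KDim

open MeasureTheory Filter Set Topology Pool.Agent.H82Z.Kak
open scoped ENNReal NNReal

theorem mass {X : Type} [MetricSpace X] [MeasurableSpace X] [BorelSpace X] (K : Set X)
    (Φ : ℝ × ℝ → X) (t0 t1 C D : ℝ) (ht : t0 < t1) (hC : 0 < C) (hD : 0 ≤ D)
    (hK : ∀ q ∈ Ico (0 : ℝ) 1 ×ˢ Icc t0 t1, Φ q ∈ K)
    (hΦ : ∀ q ∈ Ico (0 : ℝ) 1 ×ˢ Icc t0 t1, ∀ q' ∈ Ico (0 : ℝ) 1 ×ˢ Icc t0 t1,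
      |q.2 - q'.2| ≤ dist (Φ q) (Φ q') ∧ |q.1 - q'.1| ≤ (C * dist (Φ q) (Φ q')) ^ D) :
    ENNReal.ofReal (1 + D) ≤ dimH K := by
  set T : Set (ℝ × ℝ) := Ico (0 : ℝ) 1 ×ˢ Icc t0 t1 with hT
  have hTm : MeasurableSet T := measurableSet_Ico.prod measurableSet_Icc
  have hCD : 0 < C ^ D := Real.rpow_pos_of_pos hC D
  set c0 : ℝ≥0∞ := ENNReal.ofReal (1 / (4 * C ^ D)) with hc0
  set μ : OuterMeasure X := c0 • OuterMeasure.map Φ (volume.restrict T).toOuterMeasure with hμ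
  have hμs : ∀ s, μ s = c0 * volume (Φ ⁻¹' s ∩ T) := by
    intro s
    rw [hμ, _root_.smul_apply, OuterMeasure.map_apply, smul_eq_mul]
    congr 1
    exact Measure.restrict_apply' hTm
  have hle : μ ≤ OuterMeasure.mkMetric (fun r : ℝ≥0∞ => r ^ (1 + D)) := by
    refine OuterMeasure.le_mkMetric _ μ 1 one_pos fun s hs => ?_
    rw [hμs]
    rcases (Φ ⁻¹' s ∩ T).eq_empty_or_nonempty with h | ⟨q0, hq0⟩
    · rw [h]; simp
    have hne : Metric.ediam s ≠ ⊤ := ne_top_of_le_ne_top ENNReal.one_ne_top hs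
    set Δ := Metric.diam s with hΔ
    have hΔ0 : 0 ≤ Δ := Metric.diam_nonneg
    have hsub : Φ ⁻¹' s ∩ T ⊆ Metric.closedBall q0.1 ((C * Δ) ^ D) ×ˢ Metric.closedBall q0.2 Δ := by
      intro q hq
      have h1 := hΦ q hq.2 q0 hq0.2
      have h2 : dist (Φ q) (Φ q0) ≤ Δ := Metric.dist_le_diam_of_mem' hne hq.1 hq0.1
      refine ⟨?_, ?_⟩
      · rw [Metric.mem_closedBall, Real.dist_eq]
        refine h1.2.trans (Real.rpow_le_rpow (by positivity) ?_ hD)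
        exact mul_le_mul_of_nonneg_left h2 hC.le
      · rw [Metric.mem_closedBall, Real.dist_eq]
        exact h1.1.trans h2
    have hv : volume (Φ ⁻¹' s ∩ T) ≤
        ENNReal.ofReal (2 * (C * Δ) ^ D) * ENNReal.ofReal (2 * Δ) := by
      refine (measure_mono hsub).trans ?_
      rw [Measure.volume_eq_prod, Measure.prod_prod, Real.volume_closedBall,
        Real.volume_closedBall]
    have he : Metric.ediam s = ENNReal.ofReal Δ := by
      rw [hΔ, Metric.diam, ENNReal.ofReal_toReal hne]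
    refine (mul_le_mul_right hv c0).trans (le_of_eq ?_)
    rw [he, ENNReal.ofReal_rpow_of_nonneg hΔ0 (by linarith), hc0,
      ← ENNReal.ofReal_mul (by positivity), ← ENNReal.ofReal_mul (by positivity)]
    congr 1
    rw [Real.mul_rpow hC.le hΔ0, Real.rpow_add' hΔ0 (by linarith), Real.rpow_one]
    field_simp
    ring
  have hpos : μ K ≠ 0 := by
    have hsub : T ⊆ Φ ⁻¹' K := fun q hq => hK q hq
    rw [hμs, inter_eq_right.2 hsub, hT, Measure.volume_eq_prod,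
      Measure.prod_prod, Real.volume_Ico, Real.volume_Icc]
    refine mul_ne_zero ?_ (mul_ne_zero ?_ ?_)
    · exact (ENNReal.ofReal_pos.2 (by positivity)).ne'
    · exact (ENNReal.ofReal_pos.2 (by norm_num)).ne'
    · exact (ENNReal.ofReal_pos.2 (by linarith)).ne'
  have h1 : (Measure.hausdorffMeasure (1 + D) : Measure X) K ≠ 0 := by
    intro h
    apply hpos
    have h2 := hle K
    rw [← Measure.mkMetric_toOuterMeasure] at h2
    exact le_antisymm (h2.trans (le_of_eq h)) bot_le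
  have h3 : 0 ≤ 1 + D := by linarith
  have := le_dimH_of_hausdorffMeasure_ne_zero (s := K) (d := ⟨1 + D, h3⟩) h1
  rwa [ENNReal.ofReal_eq_coe_nnreal h3]

/-- the digits in base `m` -/
noncomputable def dig (m : ℕ) (hm : 0 < m) (y : ℝ) (k : ℕ) : Fin m :=
  ⟨⌊y * (m : ℝ) ^ (k + 1)⌋₊ % m, Nat.mod_lt _ hm⟩

theorem floor_eq (m : ℕ) (hm : 0 < m) (y y' : ℝ) (hy : y < 1) (hy' : y' < 1) (k : ℕ)
    (h : ∀ j < k, dig m hm y j = dig m hm y' j) :
    ⌊y * (m : ℝ) ^ k⌋₊ = ⌊y' * (m : ℝ) ^ k⌋₊ := by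
  induction k with
  | zero => simp [Nat.floor_eq_zero.2 hy, Nat.floor_eq_zero.2 hy']
  | succ k ih =>
    have hm' : (m : ℝ) ≠ 0 := by exact_mod_cast hm.ne'
    have e : ∀ z : ℝ, ⌊z * (m : ℝ) ^ (k + 1)⌋₊ / m = ⌊z * (m : ℝ) ^ k⌋₊ := by
      intro z
      rw [← Nat.floor_div_natCast]
      congr 1
      field_simp
      ring
    have h1 := ih fun j hj => h j (by omega)
    have h2 : ⌊y * (m : ℝ) ^ (k + 1)⌋₊ % m = ⌊y' * (m : ℝ) ^ (k + 1)⌋₊ % m :=
      congrArg Fin.val (h k (by omega))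
    rw [← Nat.div_add_mod ⌊y * (m : ℝ) ^ (k + 1)⌋₊ m, ← Nat.div_add_mod ⌊y' * (m : ℝ) ^ (k + 1)⌋₊ m,
      e, e, h1, h2]

theorem close (m : ℕ) (hm : 0 < m) (y y' : ℝ) (hy : y ∈ Ico (0 : ℝ) 1) (hy' : y' ∈ Ico (0 : ℝ) 1)
    (k : ℕ) (h : ∀ j < k, dig m hm y j = dig m hm y' j) : |y - y'| ≤ ((m : ℝ)⁻¹) ^ k := by
  have h1 := floor_eq m hm y y' hy.2 hy'.2 k h
  have hp : (0 : ℝ) < (m : ℝ) ^ k := by positivity
  have a1 := Nat.floor_le (mul_nonneg hy.1 hp.le)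
  have a2 := Nat.floor_le (mul_nonneg hy'.1 hp.le)
  have a3 := Nat.lt_floor_add_one (y * (m : ℝ) ^ k)
  have a4 := Nat.lt_floor_add_one (y' * (m : ℝ) ^ k)
  rw [h1] at a1 a3
  rw [inv_pow, ← one_div, le_div_iff₀ hp, ← abs_of_pos hp, ← abs_mul, abs_le]
  constructor <;> nlinarith

section code
variable {V : Type} [NormedAddCommGroup V] [NormedSpace ℝ V] [CompleteSpace V] {m : ℕ}

/-- the point coded by an infinite word -/
noncomputable def X (e : Fin m → V) (ρ : ℝ) (ξ : ℕ → Fin m) : V := ∑' k, ρ ^ k • e (ξ k)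

theorem summ (e : Fin m → V) {ρ : ℝ} (h0 : 0 < ρ) (h1 : ρ < 1) (ξ : ℕ → Fin m) :
    Summable fun k => ρ ^ k • e (ξ k) := by
  refine Summable.of_norm_bounded
    ((summable_geometric_of_lt_one h0.le h1).mul_right (∑ i, ‖e i‖)) fun k => ?_
  rw [norm_smul, Real.norm_of_nonneg (by positivity)]
  exact mul_le_mul_of_nonneg_left
    (Finset.single_le_sum (f := fun i => ‖e i‖) (fun _ _ => norm_nonneg _) (Finset.mem_univ _))
    (by positivity)

theorem X_shift (e : Fin m → V) {ρ : ℝ} (h0 : 0 < ρ) (h1 : ρ < 1) (ξ : ℕ → Fin m) :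
    X e ρ ξ = ρ • X e ρ (fun k => ξ (k + 1)) + e (ξ 0) := by
  rw [X, (summ e h0 h1 ξ).tsum_eq_zero_add, X,
    ← (summ e h0 h1 fun k => ξ (k + 1)).tsum_const_smul ρ, add_comm]
  simp only [pow_zero, one_smul, smul_smul, pow_succ']

theorem X_mem (e : Fin m → V) {ρ : ℝ} (h0 : 0 < ρ) (h1 : ρ < 1) (F : Set V) (hF : IsClosed F)
    (hne : F.Nonempty) (hinv : ∀ i, ∀ p ∈ F, ρ • p + e i ∈ F) (ξ : ℕ → Fin m) : X e ρ ξ ∈ F := by
  obtain ⟨p0, hp0⟩ := hne
  have hn : ∀ (n : ℕ) (ξ : ℕ → Fin m),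
      ∑ k ∈ Finset.range n, ρ ^ k • e (ξ k) + ρ ^ n • p0 ∈ F := by
    intro n
    induction n with
    | zero => intro ξ; simpa using hp0
    | succ n ih =>
      intro ξ
      have := hinv (ξ 0) _ (ih fun k => ξ (k + 1))
      convert this using 1
      rw [Finset.sum_range_succ', smul_add, Finset.smul_sum]
      simp only [pow_zero, one_smul, smul_smul, pow_succ']
      abel
  have hl : Tendsto (fun n => ∑ k ∈ Finset.range n, ρ ^ k • e (ξ k) + ρ ^ n • p0) atTop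
      (𝓝 (X e ρ ξ + (0 : ℝ) • p0)) :=
    (summ e h0 h1 ξ).hasSum.tendsto_sum_nat.add
      ((tendsto_pow_atTop_nhds_zero_of_lt_one h0.le h1).smul_const p0)
  rw [zero_smul, add_zero] at hl
  exact hF.mem_of_tendsto hl (Eventually.of_forall fun n => hn n ξ)

theorem sep {W : Type} [NormedAddCommGroup W] [NormedSpace ℝ W] (π : V →ₗ[ℝ] W)
    (e : Fin m → V) {ρ : ℝ} (h0 : 0 < ρ) (h1 : ρ < 1) (B : ℝ)
    (hB : ∀ ξ, ‖π (X e ρ ξ)‖ ≤ B) (hs : ∀ i i', i ≠ i' → ρ * (1 + 2 * B) ≤ ‖π (e i) - π (e i')‖)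
    (k : ℕ) : ∀ ξ ξ' : ℕ → Fin m, (∀ j < k, ξ j = ξ' j) → ξ k ≠ ξ' k →
      ρ ^ (k + 1) ≤ ‖π (X e ρ ξ) - π (X e ρ ξ')‖ := by
  induction k with
  | zero =>
    intro ξ ξ' _ hk
    have a := hs _ _ hk
    have b := hB fun k => ξ (k + 1)
    have c := hB fun k => ξ' (k + 1)
    have e1 : π (e (ξ 0)) - π (e (ξ' 0)) = (π (X e ρ ξ) - π (X e ρ ξ')) -
        ρ • (π (X e ρ fun k => ξ (k + 1)) - π (X e ρ fun k => ξ' (k + 1))) := by
      rw [X_shift e h0 h1 ξ, X_shift e h0 h1 ξ']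
      simp only [map_add, map_smul, smul_sub]
      abel
    rw [e1] at a
    have f := norm_sub_le (π (X e ρ ξ) - π (X e ρ ξ'))
      (ρ • (π (X e ρ fun k => ξ (k + 1)) - π (X e ρ fun k => ξ' (k + 1))))
    rw [norm_smul, Real.norm_of_nonneg h0.le] at f
    have g := norm_sub_le (π (X e ρ fun k => ξ (k + 1))) (π (X e ρ fun k => ξ' (k + 1)))
    have g' := mul_le_mul_of_nonneg_left (g.trans (add_le_add b c)) h0.le
    rw [zero_add, pow_one]
    linarith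
  | succ k ih =>
    intro ξ ξ' hj hk
    have a := ih (fun k => ξ (k + 1)) (fun k => ξ' (k + 1)) (fun j h => hj (j + 1) (by omega)) hk
    have e1 : π (X e ρ ξ) - π (X e ρ ξ') =
        ρ • (π (X e ρ fun k => ξ (k + 1)) - π (X e ρ fun k => ξ' (k + 1))) := by
      rw [X_shift e h0 h1 ξ, X_shift e h0 h1 ξ', hj 0 (by omega)]
      simp only [map_add, map_smul, smul_sub]
      abel
    rw [e1, norm_smul, Real.norm_of_nonneg h0.le, pow_succ']
    exact mul_le_mul_of_nonneg_left a h0.le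

end code

/-- the projection at time `t` -/
noncomputable def pr (d : ℕ) (t : ℝ) : E d × E d →ₗ[ℝ] E d :=
  LinearMap.fst ℝ _ _ + t • LinearMap.snd ℝ _ _

theorem pr_apply (d : ℕ) (t : ℝ) (p : E d × E d) : pr d t p = p.1 + t • p.2 := rfl

theorem norm_le_of_coord {d : ℕ} (v : E d) (x : E (d + 1)) (h : ∀ j, v j = x j.castSucc) :
    ‖v‖ ≤ ‖x‖ := by
  refine (pow_le_pow_iff_left₀ (norm_nonneg _) (norm_nonneg _) two_ne_zero).1 ?_
  rw [EuclideanSpace.real_norm_sq_eq, EuclideanSpace.real_norm_sq_eq, Fin.sum_univ_castSucc]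
  simp only [h]
  exact le_add_of_nonneg_right (sq_nonneg _)

theorem thm_dim : S_dim := by
  intro d m hm ρ R h0 h1 e F hF hne hR hinv t0 t1 ht hs K hK
  have hm0 : 0 < m := by omega
  have hm1 : (1 : ℝ) < m := by exact_mod_cast hm
  have hR0 : 0 ≤ R := by obtain ⟨p, hp⟩ := hne; exact (norm_nonneg _).trans (hR p hp)
  have hX := X_mem e h0 h1 F hF hne hinv
  have hlρ : 0 < Real.log (1 / ρ) := Real.log_pos (by rw [lt_div_iff₀ h0]; linarith)
  set D := Real.log m / Real.log (1 / ρ) with hD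
  have hD0 : 0 ≤ D := div_nonneg (Real.log_pos hm1).le hlρ.le
  have hρD : ρ ^ D = (m : ℝ)⁻¹ := by
    rw [Real.rpow_def_of_pos h0, ← Real.exp_log (inv_pos.2 (lt_trans one_pos hm1)), Real.log_inv,
      hD]
    congr 1
    have : Real.log ρ = -Real.log (1 / ρ) := by rw [one_div, Real.log_inv, neg_neg]
    rw [this]
    field_simp
  have hex : ∀ q : ℝ × ℝ, ∃ x : E (d + 1), q ∈ Ico (0 : ℝ) 1 ×ˢ Icc t0 t1 → x ∈ K ∧
      (∀ j : Fin d, x j.castSucc = pr d q.2 (X e ρ (dig m hm0 q.1)) j) ∧ x (Fin.last d) = q.2 := by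
    intro q
    by_cases hq : q ∈ Ico (0 : ℝ) 1 ×ˢ Icc t0 t1
    · obtain ⟨x, hx, h2, h3⟩ := hK _ (hX (dig m hm0 q.1)) q.2 hq.2
      exact ⟨x, fun _ => ⟨hx, fun j => by rw [h2 j, pr_apply]; simp, h3⟩⟩
    · exact ⟨0, fun h => absurd h hq⟩
  choose Φ hΦ using hex
  refine mass K Φ t0 t1 ((1 + R) / ρ) D ht (by positivity) hD0 (fun q hq => (hΦ q hq).1) ?_
  intro q hq q' hq'
  obtain ⟨-, a1, a2⟩ := hΦ q hq
  obtain ⟨-, b1, b2⟩ := hΦ q' hq'
  have ht' : |q.2 - q'.2| ≤ dist (Φ q) (Φ q') := by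
    rw [← a2, ← b2, ← Real.dist_eq]
    exact PiLp.dist_apply_le _ _ _
  refine ⟨ht', ?_⟩
  have hnn : 0 ≤ ((1 + R) / ρ * dist (Φ q) (Φ q')) ^ D := by positivity
  by_cases hall : ∀ k, dig m hm0 q.1 k = dig m hm0 q'.1 k
  · refine le_trans ?_ hnn
    have hl := tendsto_pow_atTop_nhds_zero_of_lt_one (r := (m : ℝ)⁻¹) (by positivity)
      (inv_lt_one_of_one_lt₀ hm1)
    exact ge_of_tendsto' hl fun k => close m hm0 _ _ hq.1 hq'.1 k fun j _ => hall j
  push Not at hall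
  classical
  set k := Nat.find hall with hk
  have c1 : dig m hm0 q.1 k ≠ dig m hm0 q'.1 k := Nat.find_spec hall
  have c2 : ∀ j < k, dig m hm0 q.1 j = dig m hm0 q'.1 j := fun j hj =>
    not_not.1 (Nat.find_min hall hj)
  have c3 := close m hm0 _ _ hq.1 hq'.1 k c2
  have c4 := sep (pr d q.2) e h0 h1 (R * (1 + |q.2|)) (fun ξ => by
      rw [pr_apply]
      refine (norm_add_le _ _).trans ?_
      rw [norm_smul, Real.norm_eq_abs]
      have u1 := (norm_fst_le (X e ρ ξ)).trans (hR _ (hX ξ))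
      have u2 := (norm_snd_le (X e ρ ξ)).trans (hR _ (hX ξ))
      nlinarith [abs_nonneg q.2])
    (fun i i' h => by
      have := hs q.2 hq.2 i i' h
      rw [pr_apply, pr_apply]
      calc ρ * (1 + 2 * (R * (1 + |q.2|))) = ρ * (1 + 2 * R * (1 + |q.2|)) := by ring
        _ ≤ _ := this) k _ _ c2 c1
  have c5 : ‖pr d q.2 (X e ρ (dig m hm0 q.1)) - pr d q'.2 (X e ρ (dig m hm0 q'.1))‖ ≤
      dist (Φ q) (Φ q') := by
    rw [dist_eq_norm]
    refine norm_le_of_coord _ _ fun j => ?_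
    rw [PiLp.sub_apply, PiLp.sub_apply, a1, b1]
  have c6 : ‖pr d q'.2 (X e ρ (dig m hm0 q'.1)) - pr d q.2 (X e ρ (dig m hm0 q'.1))‖ ≤
      dist (Φ q) (Φ q') * R := by
    rw [pr_apply, pr_apply, add_sub_add_left_eq_sub, ← sub_smul, norm_smul, Real.norm_eq_abs,
      abs_sub_comm]
    exact mul_le_mul ht' ((norm_snd_le _).trans (hR _ (hX _))) (norm_nonneg _) dist_nonneg
  have c7 := norm_sub_le_norm_sub_add_norm_sub (pr d q.2 (X e ρ (dig m hm0 q.1)))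
    (pr d q'.2 (X e ρ (dig m hm0 q'.1))) (pr d q.2 (X e ρ (dig m hm0 q'.1)))
  have c8 : ρ ^ k ≤ (1 + R) / ρ * dist (Φ q) (Φ q') := by
    rw [div_mul_eq_mul_div, le_div_iff₀ h0, ← pow_succ]
    linarith
  refine c3.trans ?_
  rw [← hρD, ← Real.rpow_natCast, ← Real.rpow_mul h0.le, mul_comm D, Real.rpow_mul h0.le,
    Real.rpow_natCast]
  exact Real.rpow_le_rpow (by positivity) c8 hD0

end Pool.Agent.H481Z.KDim
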