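import Mathlib

set_option autoImplicit false

/-!
Somewhere dense convex hulls of orbits are dense when the adjoint has no eigenvalue.
-/

namespace Pool.Agent.H481Z.Rez

open Set Filter Topology BoundedContinuousFunction

/-- A proper closed convex cone with interior that is invariant under `T` forces some
`T - μ` (real `μ`) to have non-dense range. -/
theorem krein {E : Type*} [NormedAddCommGroup E] [NormedSpace ℝ E] (T : E →L[ℝ] E) (P : Set E)
    (hcl : IsClosed P) (hadd : ∀ a ∈ P, ∀ b ∈ P, a + b ∈ P)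
    (hsm : ∀ t : ℝ, 0 ≤ t → ∀ a ∈ P, t • a ∈ P) (hT : ∀ a ∈ P, T a ∈ P)
    (y : E) (hy : y ∈ interior P)
    (hd : ∀ μ : ℝ, Dense (range fun z => T z - μ • z)) : P = univ := by
  have h1 : ∀ a ∈ P, ∀ b ∈ interior P, a + b ∈ interior P := by
    intro a ha b hb
    rw [mem_interior_iff_mem_nhds] at hb ⊢
    have ht : Tendsto (fun z : E => z - a) (𝓝 (a + b)) (𝓝 b) := by
      have : ContinuousAt (fun z : E => z - a) (a + b) := by fun_prop
      simpa [ContinuousAt] using this
    filter_upwards [ht hb] with z hz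
    have := hadd a ha _ hz
    simpa using this
  have h2 : ∀ t : ℝ, 0 < t → ∀ b ∈ interior P, t • b ∈ interior P := by
    intro t ht b hb
    rw [mem_interior_iff_mem_nhds] at hb ⊢
    have ht' : Tendsto (fun z : E => t⁻¹ • z) (𝓝 (t • b)) (𝓝 b) := by
      have : ContinuousAt (fun z : E => t⁻¹ • z) (t • b) := by fun_prop
      simpa [ContinuousAt, smul_smul, inv_mul_cancel₀ ht.ne'] using this
    filter_upwards [ht' hb] with z hz
    have := hsm t ht.le _ hz
    simpa [smul_smul, mul_inv_cancel₀ ht.ne'] using this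
  -- small positive perturbations of an interior point
  have h3 : ∀ b ∈ interior P, ∀ v : E, ∃ t : ℝ, 0 < t ∧ b + t • v ∈ interior P := by
    intro b hb v
    have ht : Tendsto (fun t : ℝ => b + t • v) (𝓝 0) (𝓝 b) := by
      have : ContinuousAt (fun t : ℝ => b + t • v) 0 := by fun_prop
      simpa [ContinuousAt] using this
    have h := ht (isOpen_interior.mem_nhds hb)
    have h' : ∀ᶠ t : ℝ in 𝓝[>] 0, b + t • v ∈ interior P := nhdsWithin_le_nhds h
    obtain ⟨t, ht1, ht2⟩ := (h'.and self_mem_nhdsWithin).exists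
    exact ⟨t, ht2, ht1⟩
  by_contra hne
  have h0 : (0 : E) ∉ interior P := by
    intro h
    apply hne
    refine eq_univ_of_forall fun z => ?_
    obtain ⟨t, ht, htz⟩ := h3 0 h z
    have := hsm t⁻¹ (inv_pos.2 ht).le _ (interior_subset htz)
    simpa [smul_smul, inv_mul_cancel₀ ht.ne'] using this
  set L : Set ℝ := {l | ∃ z ∈ P, l • z - T z ∈ interior P} with hL
  have hpos : ∀ l ∈ L, 0 < l := by
    rintro l ⟨z, hz, hlz⟩
    by_contra hl
    push Not at hl
    apply h0
    have := h1 _ (hadd _ (hsm (-l) (by linarith) z hz) _ (hT z hz)) _ hlz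
    simpa using this
  have hkey : ∀ l : ℝ, 0 < l → ∀ u ∈ P, l • u - T u ∈ interior P → u ∈ interior P := by
    intro l hl u hu h
    have := h2 l⁻¹ (inv_pos.2 hl) _ (h1 _ (hT u hu) _ h)
    simpa [smul_smul, inv_mul_cancel₀ hl.ne'] using this
  have hLne : L.Nonempty := by
    obtain ⟨t, ht, hty⟩ := h3 y hy (-T y)
    refine ⟨t⁻¹, y, interior_subset hy, ?_⟩
    have := h2 t⁻¹ (inv_pos.2 ht) _ hty
    simpa [smul_smul, inv_mul_cancel₀ ht.ne', sub_eq_add_neg] using this
  have hLb : BddBelow L := ⟨0, fun l hl => (hpos l hl).le⟩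
  set μ := sInf L with hμ
  obtain ⟨_, hw2, ⟨w, rfl⟩⟩ := (hd μ).inter_open_nonempty (interior P) isOpen_interior ⟨y, hy⟩
  have hev : ∀ᶠ l in 𝓝 μ, l • (-w) - T (-w) ∈ interior P := by
    have ht : Tendsto (fun l : ℝ => l • (-w) - T (-w)) (𝓝 μ) (𝓝 (T w - μ • w)) := by
      have : ContinuousAt (fun l : ℝ => l • (-w) - T (-w)) μ := by fun_prop
      have e : μ • (-w) - T (-w) = T w - μ • w := by
        simp only [smul_neg, map_neg]; abel
      rw [← e]; exact this
    exact ht (isOpen_interior.mem_nhds hw2)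
  have hcl' : μ ∈ closure L := csInf_mem_closure hLne hLb
  obtain ⟨l, hl1, hl2⟩ := mem_closure_iff_nhds.1 hcl' _ hev
  have hlpos := hpos l hl2
  obtain ⟨z, hz, hlz⟩ := hl2
  have hzi := hkey l hlpos z hz hlz
  set S : Set ℝ := {t | 0 ≤ t ∧ t • z + (-w) ∈ P} with hS
  have hSne : S.Nonempty := by
    obtain ⟨t, ht, hty⟩ := h3 z hzi (-w)
    refine ⟨t⁻¹, (inv_pos.2 ht).le, ?_⟩
    have := hsm t⁻¹ (inv_pos.2 ht).le _ (interior_subset hty)
    simpa [smul_smul, inv_mul_cancel₀ ht.ne'] using this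
  have hSb : BddBelow S := ⟨0, fun t ht => ht.1⟩
  have hScl : IsClosed S := by
    have : S = Ici 0 ∩ (fun t : ℝ => t • z + (-w)) ⁻¹' P := rfl
    rw [this]
    exact isClosed_Ici.inter (hcl.preimage (by fun_prop))
  have hs := hScl.csInf_mem hSne hSb
  set s := sInf S with hs'
  have hui : s • z + (-w) ∈ interior P := by
    refine hkey l hlpos _ hs.2 ?_
    have := h1 _ (hsm s hs.1 _ (interior_subset hlz)) _ hl1
    convert this using 1
    simp only [smul_add, map_add, map_smul, smul_sub, smul_smul, mul_comm l s]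
    abel
  have hs0 : s = 0 := by
    by_contra hs0
    have hsp : 0 < s := lt_of_le_of_ne hs.1 (Ne.symm hs0)
    have ht : Tendsto (fun t : ℝ => t • z + (-w)) (𝓝 s) (𝓝 (s • z + (-w))) := by
      have : ContinuousAt (fun t : ℝ => t • z + (-w)) s := by fun_prop
      exact this
    have h := (ht (isOpen_interior.mem_nhds hui))
    have h' : ∀ᶠ t : ℝ in 𝓝[<] s, (t • z + (-w) ∈ interior P) ∧ 0 < t :=
      nhdsWithin_le_nhds (Filter.Eventually.and h (lt_mem_nhds hsp))
    obtain ⟨t, ⟨ht1, ht2⟩, ht3⟩ := (h'.and self_mem_nhdsWithin).exists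
    have : s ≤ t := csInf_le hSb ⟨ht2.le, interior_subset ht1⟩
    exact absurd ht3 (not_lt.2 this)
  have hwP : -w ∈ P := by
    have := hs.2
    rw [hs0] at this
    simpa using this
  have h' : ∀ᶠ l in 𝓝[<] μ, l • (-w) - T (-w) ∈ interior P := nhdsWithin_le_nhds hev
  obtain ⟨t, ht1, ht3⟩ := (h'.and self_mem_nhdsWithin).exists
  have : μ ≤ t := csInf_le hLb ⟨-w, hwP, ht1⟩
  exact absurd ht3 (not_lt.2 this)

/-- On a nontrivial complex Banach space, some `A - l` is not bounded below. -/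
theorem not_bddBelow {E : Type*} [NormedAddCommGroup E] [NormedSpace ℂ E] [CompleteSpace E]
    [Nontrivial E] (A : E →L[ℂ] E)
    (h : ∀ l : ℂ, ∃ c : ℝ, 0 < c ∧ ∀ F : E, c * ‖F‖ ≤ ‖A F - l • F‖) : False := by
  have hne : (spectrum ℂ A).Nonempty := spectrum.nonempty A
  have hnu : spectrum ℂ A ≠ univ := by
    intro hu
    have := (spectrum.isCompact (𝕜 := ℂ) A)
    rw [hu] at this
    exact noncompact_univ ℂ this
  obtain ⟨l, hl⟩ := nonempty_frontier_iff.2 ⟨hne, hnu⟩
  have hl1 : l ∈ spectrum ℂ A := (spectrum.isClosed A).frontier_subset hl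
  have hl2 : l ∈ closure (spectrum ℂ A)ᶜ := by
    rw [← frontier_compl] at hl
    exact frontier_subset_closure hl
  obtain ⟨c, hc, hb⟩ := h l
  obtain ⟨m, hm1, hm2⟩ := Metric.mem_closure_iff.1 hl2 (c / 4) (by linarith)
  have hu : IsUnit (algebraMap ℂ (E →L[ℂ] E) m - A) := by
    simpa [spectrum.mem_iff] using hm1
  obtain ⟨u, hu⟩ := hu
  rw [dist_eq_norm] at hm2
  have hlow : ∀ F : E, c / 2 * ‖F‖ ≤ ‖(u : E →L[ℂ] E) F‖ := by
    intro F
    have e : A F - l • F = (m - l) • F - (u : E →L[ℂ] E) F := by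
      rw [hu]; simp [sub_smul, Algebra.algebraMap_eq_smul_one]
    have h1 := hb F
    rw [e] at h1
    have h2 : ‖(m - l) • F - (u : E →L[ℂ] E) F‖ ≤ c / 4 * ‖F‖ + ‖(u : E →L[ℂ] E) F‖ := by
      refine (norm_sub_le _ _).trans ?_
      rw [norm_smul, norm_sub_rev]
      have := norm_nonneg F
      nlinarith
    have := norm_nonneg F
    nlinarith
  have hinv : ‖(↑u⁻¹ : E →L[ℂ] E)‖ ≤ 2 / c := by
    refine ContinuousLinearMap.opNorm_le_bound _ (by positivity) fun G => ?_
    have h1 := hlow ((↑u⁻¹ : E →L[ℂ] E) G)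
    have e : (u : E →L[ℂ] E) ((↑u⁻¹ : E →L[ℂ] E) G) = G := by
      rw [← mul_apply_eq_comp, u.mul_inv]; rfl
    rw [e] at h1
    rw [div_mul_eq_mul_div, le_div_iff₀ hc]
    nlinarith
  have hinvpos : 0 < ‖(↑u⁻¹ : E →L[ℂ] E)‖ := norm_pos_iff.2 (Units.ne_zero _)
  have hnear : ‖(algebraMap ℂ (E →L[ℂ] E) l - A) - u‖ < ‖(↑u⁻¹ : E →L[ℂ] E)‖⁻¹ := by
    have e : (algebraMap ℂ (E →L[ℂ] E) l - A) - u = algebraMap ℂ (E →L[ℂ] E) (l - m) := by
      rw [hu, map_sub]; abel
    rw [e, norm_algebraMap']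
    have : c / 2 ≤ ‖(↑u⁻¹ : E →L[ℂ] E)‖⁻¹ := by
      have := inv_anti₀ hinvpos hinv
      simpa using this
    linarith
  exact (spectrum.mem_iff.1 hl1) (Units.ofNearby u _ hnear).isUnit

variable {X : Type*} [NormedAddCommGroup X] [NormedSpace ℂ X]

theorem dense_range (T : X →L[ℂ] X)
    (hT : ∀ (c : ℂ) (φ : X →L[ℂ] ℂ), φ.comp T = c • φ → φ = 0) (c : ℂ) :
    Dense (range fun z => T z - c • z) := by
  intro w
  by_contra hw
  have hconv : Convex ℝ (range fun z => T z - c • z) := by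
    rintro _ ⟨a, rfl⟩ _ ⟨b, rfl⟩ s t _ _ _
    refine ⟨s • a + t • b, ?_⟩
    simp only [map_add, smul_add, smul_sub, ContinuousLinearMap.map_smul_of_tower,
      smul_comm c s, smul_comm c t]
    abel
  obtain ⟨φ, u, h1, h2⟩ := RCLike.geometric_hahn_banach_closed_point (𝕜 := ℂ) hconv.closure
    isClosed_closure hw
  have hz : ∀ z, φ (T z - c • z) = 0 := by
    intro z
    by_contra hne
    have : RCLike.re (φ (T (((u : ℂ) / φ (T z - c • z)) • z) -
        c • (((u : ℂ) / φ (T z - c • z)) • z))) < u :=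
      h1 _ (subset_closure ⟨((u : ℂ) / φ (T z - c • z)) • z, rfl⟩)
    have e : T (((u : ℂ) / φ (T z - c • z)) • z) - c • (((u : ℂ) / φ (T z - c • z)) • z) =
        ((u : ℂ) / φ (T z - c • z)) • (T z - c • z) := by
      rw [map_smul, smul_comm c, smul_sub]
    rw [e, map_smul, smul_eq_mul, div_mul_cancel₀ _ hne] at this
    simp at this
  have hφ : φ = 0 := by
    refine hT c φ ?_
    ext z
    have := hz z
    rw [map_sub, map_smul, sub_eq_zero] at this
    simpa using this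
  have h3 := h1 0 (subset_closure ⟨0, by simp⟩)
  rw [hφ] at h2 h3
  simp at h2 h3
  linarith

section Abstract

variable {Y : Type*} [NormedAddCommGroup Y] [NormedSpace ℂ Y]

/-- Bounded orbits of `B`. -/
def orbSpace (B : Y →L[ℂ] Y) : Submodule ℂ (ℕ →ᵇ Y) where
  carrier := {F | ∀ n, F (n + 1) = B (F n)}
  add_mem' := by
    intro F G hF hG n
    simp only [BoundedContinuousFunction.coe_add, Pi.add_apply, hF n, hG n, map_add]
  zero_mem' := by intro n; simp
  smul_mem' := by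
    intro c F hF n
    simp only [BoundedContinuousFunction.coe_smul, hF n, map_smul]

theorem isClosed_orbSpace (B : Y →L[ℂ] Y) : IsClosed (orbSpace B : Set (ℕ →ᵇ Y)) := by
  have : (orbSpace B : Set (ℕ →ᵇ Y)) = ⋂ n, {F | F (n + 1) = B (F n)} := by
    ext F; simp [orbSpace]
  rw [this]
  exact isClosed_iInter fun n => isClosed_eq (by fun_prop) (by fun_prop)

/-- The shift on `orbSpace B`, as a linear map. -/
noncomputable def shiftLin (B : Y →L[ℂ] Y) : orbSpace B →ₗ[ℂ] orbSpace B where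
  toFun := fun F => ⟨F.1.compContinuous ⟨Nat.succ, continuous_of_discreteTopology⟩,
        fun n => F.2 (n + 1)⟩
  map_add' := fun F G => by ext n; rfl
  map_smul' := fun c F => by ext n; rfl

/-- The shift on `orbSpace B`. -/
noncomputable def shiftOp (B : Y →L[ℂ] Y) : orbSpace B →L[ℂ] orbSpace B :=
  LinearMap.mkContinuous (𝕜 := ℂ) (𝕜₂ := ℂ) (E := orbSpace B) (F := orbSpace B) (shiftLin B) 1
    (fun F => by
      rw [one_mul]
      exact (BoundedContinuousFunction.norm_le (norm_nonneg _)).2 fun n =>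
        F.1.norm_coe_le_norm (n + 1))

theorem abstract_orbit [CompleteSpace Y] (B : Y →L[ℂ] Y) (G : ℕ → Y) (M : ℝ)
    (hG : ∀ n, G (n + 1) = B (G n)) (hGb : ∀ n, ‖G n‖ ≤ M) (hG0 : G 0 ≠ 0)
    (h : ∀ l : ℂ, ∃ c : ℝ, 0 < c ∧ ∀ (F : ℕ → Y) (m ε : ℝ), (∀ n, F (n + 1) = B (F n)) →
      (∀ n, ‖F n‖ ≤ m) → (∀ n, ‖F (n + 1) - l • F n‖ ≤ ε) → ∀ n, ‖F n‖ ≤ m / 2 + c * ε) :
    False := by
  let F0 : orbSpace B := ⟨BoundedContinuousFunction.ofNormedAddCommGroupDiscrete G M hGb, hG⟩
  have : Nontrivial (orbSpace B) := ⟨⟨F0, 0, fun h => hG0 (by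
    have : F0.1 0 = 0 := by rw [h]; rfl
    exact this)⟩⟩
  have : CompleteSpace (orbSpace B) := (isClosed_orbSpace B).completeSpace_coe
  refine not_bddBelow (E := orbSpace B) (shiftOp B) fun l => ?_
  obtain ⟨c, hc, hl⟩ := h l
  refine ⟨1 / (2 * c), by positivity, fun F => ?_⟩
  have h1 := hl F.1 ‖F‖ ‖shiftOp B F - l • F‖ F.2 (fun n => F.1.norm_coe_le_norm n)
    (fun n => (shiftOp B F - l • F).1.norm_coe_le_norm n)
  have h2 : ‖F‖ ≤ ‖F‖ / 2 + c * ‖shiftOp B F - l • F‖ :=
    (BoundedContinuousFunction.norm_le (by positivity)).2 h1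
  rw [div_mul_eq_mul_div, div_le_iff₀ (by positivity)]
  nlinarith

end Abstract

theorem main (T : X →L[ℂ] X)
    (hT : ∀ (c : ℂ) (φ : X →L[ℂ] ℂ), φ.comp T = c • φ → φ = 0) (x : X)
    (hint : (interior (closure (convexHull ℝ (Set.range (fun n : ℕ => (T ^ n) x))))).Nonempty) :
    closure (convexHull ℝ (Set.range (fun n : ℕ => (T ^ n) x))) = Set.univ := by
  set C := closure (convexHull ℝ (Set.range (fun n : ℕ => (T ^ n) x))) with hC
  have hCconv : Convex ℝ C := (convex_convexHull ℝ _).closure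
  have hCcl : IsClosed C := isClosed_closure
  have hmin : ∀ D : Set X, IsClosed D → Convex ℝ D → (∀ n : ℕ, (T ^ n) x ∈ D) → C ⊆ D := by
    intro D h1 h2 h3
    exact closure_minimal (convexHull_min (range_subset_iff.2 h3) h2) h1
  have horb : ∀ n : ℕ, (T ^ n) x ∈ C := fun n => subset_closure (subset_convexHull ℝ _ ⟨n, rfl⟩)
  have hsucc : ∀ (n : ℕ) (z : X), (T ^ (n + 1)) z = T ((T ^ n) z) := by
    intro n z; rw [pow_succ']; rfl
  have hsucc' : ∀ (n : ℕ) (z : X), (T ^ (n + 1)) z = (T ^ n) (T z) := by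
    intro n z; rw [pow_succ]; rfl
  -- Step 1: zero is an interior point
  have h0 : (0 : X) ∈ interior C := by
    by_contra h0
    obtain ⟨y, hy⟩ := hint
    obtain ⟨f, hf⟩ := geometric_hahn_banach_open_point hCconv.interior isOpen_interior h0
    have hf' : ∀ a ∈ C, f a ≤ 0 := by
      have h1 : closure (interior C) = C := by
        rw [hCconv.closure_interior_eq_closure_of_nonempty_interior ⟨y, hy⟩, hCcl.closure_eq]
      rw [← h1]
      refine closure_minimal (t := {a | f a ≤ 0}) (fun a ha => ?_)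
        (isClosed_le f.continuous continuous_const)
      have := hf a ha
      rw [map_zero] at this
      exact this.le
    set P : Set X := {z | ∀ ψ : X →L[ℝ] ℝ, (∀ n : ℕ, 0 ≤ ψ ((T ^ n) x)) → 0 ≤ ψ z} with hP
    have hPcl : IsClosed P := by
      have : P = ⋂ ψ : X →L[ℝ] ℝ, ⋂ _ : (∀ n : ℕ, 0 ≤ ψ ((T ^ n) x)), {z | 0 ≤ ψ z} := by
        ext z; simp [hP]
      rw [this]
      exact isClosed_iInter fun ψ => isClosed_iInter fun _ =>
        isClosed_le continuous_const ψ.continuous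
    have hadd : ∀ a ∈ P, ∀ b ∈ P, a + b ∈ P := fun a ha b hb ψ hψ => by
      rw [map_add]; exact add_nonneg (ha ψ hψ) (hb ψ hψ)
    have hsm : ∀ t : ℝ, 0 ≤ t → ∀ a ∈ P, t • a ∈ P := fun t ht a ha ψ hψ => by
      rw [map_smul]; exact mul_nonneg ht (ha ψ hψ)
    have hCP : C ⊆ P := hmin P hPcl
      (fun a ha b hb s t hs ht _ => hadd _ (hsm s hs a ha) _ (hsm t ht b hb))
      (fun n ψ hψ => hψ n)
    have hPT : ∀ a ∈ P, (T.restrictScalars ℝ) a ∈ P := fun a ha ψ hψ =>
      ha (ψ.comp (T.restrictScalars ℝ)) fun n => by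
        have := hψ (n + 1)
        rw [hsucc] at this
        exact this
    have huniv := krein (T.restrictScalars ℝ) P hPcl hadd hsm hPT y (interior_mono hCP hy)
      (fun μ => by
        have := dense_range T hT (μ : ℂ)
        simpa [Complex.coe_smul] using this)
    have hneg : -y ∈ P := huniv ▸ mem_univ _
    have h1 := hneg (-f) fun n => by
      simpa using hf' _ (horb n)
    have h2 := hf y hy
    simp at h1 h2
    linarith
  obtain ⟨r, hr, hball⟩ := Metric.mem_nhds_iff.1 (mem_interior_iff_mem_nhds.1 h0)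
  -- a bound on `C` bounds the norm
  have hnorm : ∀ (φ : X →L[ℂ] ℂ) (u : ℝ), (∀ a ∈ C, (φ a).re ≤ u) → ‖φ‖ ≤ 2 * u / r := by
    intro φ u hu
    have hu0 : 0 ≤ u := by simpa using hu 0 (interior_subset h0)
    refine ContinuousLinearMap.opNorm_le_bound _ (by positivity) fun z => ?_
    by_cases hz : φ z = 0
    · rw [hz, norm_zero]; positivity
    have hz0 : z ≠ 0 := by rintro rfl; simp at hz
    have hzp : 0 < ‖z‖ := norm_pos_iff.2 hz0
    have hφp : 0 < ‖φ z‖ := norm_pos_iff.2 hz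
    set a : ℂ := ((r / (2 * ‖z‖) * ‖φ z‖ : ℝ) : ℂ) / φ z with ha
    have hna : ‖a‖ = r / (2 * ‖z‖) := by
      rw [ha, norm_div, Complex.norm_real, Real.norm_of_nonneg (by positivity)]
      field_simp
    have hmem : a • z ∈ C := by
      apply hball
      rw [mem_ball_zero_iff, norm_smul, hna]
      have : r / (2 * ‖z‖) * ‖z‖ = r / 2 := by field_simp
      rw [this]; linarith
    have h1 := hu _ hmem
    rw [map_smul, smul_eq_mul, ha, div_mul_cancel₀ _ hz, Complex.ofReal_re] at h1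
    have e : ‖φ z‖ = (r / (2 * ‖z‖) * ‖φ z‖) * (2 * ‖z‖ / r) := by field_simp
    rw [e]
    calc (r / (2 * ‖z‖) * ‖φ z‖) * (2 * ‖z‖ / r) ≤ u * (2 * ‖z‖ / r) := by gcongr
      _ = 2 * u / r * ‖z‖ := by field_simp
  have hre : ∀ (φ : X →L[ℂ] ℂ) (u : ℝ), (∀ n : ℕ, (φ ((T ^ n) x)).re ≤ u) → ‖φ‖ ≤ 2 * u / r := by
    intro φ u hu
    refine hnorm φ u (hmin {a | (φ a).re ≤ u} ?_ ?_ hu)
    · exact isClosed_le (by fun_prop) continuous_const
    · intro a ha b hb s t hs ht hst
      simp only [mem_ofPred_eq, map_add, ContinuousLinearMap.map_smul_of_tower, Complex.add_re,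
        Complex.smul_re, smul_eq_mul] at ha hb ⊢
      have h1 := mul_le_mul_of_nonneg_left ha hs
      have h2 := mul_le_mul_of_nonneg_left hb ht
      have h3 : s * u + t * u = u := by rw [← add_mul, hst, one_mul]
      linarith
  by_contra hne
  obtain ⟨w, hw⟩ := (ne_univ_iff_exists_notMem _).1 hne
  obtain ⟨φ, u, h1, h2⟩ := RCLike.geometric_hahn_banach_closed_point (𝕜 := ℂ) hCconv hCcl hw
  have hφ : φ ≠ 0 := by
    rintro rfl
    have := h1 0 (interior_subset h0)
    simp at this h2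
    linarith
  have hb : ∀ n : ℕ, ‖φ.comp (T ^ n)‖ ≤ 2 * u / r := fun n => hre _ u fun j => by
    have := h1 _ (horb (n + j))
    rw [pow_add] at this
    exact this.le
  refine abstract_orbit (Y := X →L[ℂ] ℂ) ((ContinuousLinearMap.compL ℂ X X ℂ).flip T)
    (fun n => φ.comp (T ^ n)) _ (fun n => by ext z; simp [hsucc']) hb
    (fun h => hφ (by
      ext z
      have h3 := congrArg (fun ψ : X →L[ℂ] ℂ => ψ z) h
      simpa using h3)) fun l => ?_
  obtain ⟨_, ⟨z, rfl⟩, hz⟩ := Metric.mem_closure_iff.1 (dense_range T hT l x) (r / 4)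
    (by linarith)
  rw [dist_eq_norm] at hz
  refine ⟨2 * (‖z‖ + 1) / r, by positivity, fun F m ε hF hFn hFε => ?_⟩
  have hF' : ∀ n w, F (n + 1) w = F n (T w) := fun n w => by rw [hF n]; rfl
  have hm0 : 0 ≤ m := (norm_nonneg _).trans (hFn 0)
  have hε0 : 0 ≤ ε := (norm_nonneg _).trans (hFε 0)
  have hFe : ∀ n, ‖F n (T z - l • z)‖ ≤ ε * ‖z‖ := by
    intro n
    have e : F n (T z - l • z) = (F (n + 1) - l • F n) z := by
      simp [hF']
    rw [e]
    exact (F (n + 1) - l • F n).le_of_opNorm_le (hFε n) z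
  have hFx : ∀ n, ‖F n x‖ ≤ m * (r / 4) + ε * ‖z‖ := by
    intro n
    have e : F n x = F n (x - (T z - l • z)) + F n (T z - l • z) := by
      rw [← map_add]; simp
    rw [e]
    refine (norm_add_le _ _).trans (add_le_add ?_ (hFe n))
    exact ((F n).le_of_opNorm_le (hFn n) _).trans (by gcongr)
  have hFpow : ∀ j n, F n ((T ^ j) x) = F (n + j) x := by
    intro j
    induction j with
    | zero => intro n; simp
    | succ j ih =>
      intro n
      rw [hsucc, ← hF', ih]
      congr 2; ring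
  intro n
  have h3 : ‖F n‖ ≤ 2 * (m * (r / 4) + ε * ‖z‖) / r := hre _ _ fun j => by
    rw [hFpow]
    exact (Complex.re_le_norm _).trans (hFx _)
  refine h3.trans ?_
  have e : m / 2 + 2 * (‖z‖ + 1) / r * ε = 2 * (m * (r / 4) + ε * (‖z‖ + 1)) / r := by
    field_simp; ring
  rw [e]
  gcongr
  linarith

end Pool.Agent.H481Z.Rez
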